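import Pool.Agent.Helper227.SOC.Types

set_option autoImplicit false
open Filter

namespace Pool.Agent.Helper227.SOC

variable (U : Ultrafilter ℕ)

/-- it is unavoidable that an element `> v` is output. -/
def Pv (Γ : Finset ℕ → Set ℕ) (v : ℕ) (F : Finset ℕ) : Prop :=
  Bar (U : Filter ℕ) (fun F' => ∃ b ∈ Γ F', v < b) F

/-- there is a non constant selection of forced types one step above `F`. -/
def Nn (Γ : Finset ℕ → Set ℕ) (m : ℕ) (K : T U m → Prop) (F : Finset ℕ) : Prop :=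
  ∃ β : ℕ → T U m, (∀ γ, ∀ᶠ y in (U : Filter ℕ), β y ≠ γ) ∧
    ∀ᶠ y in (U : Filter ℕ), K (β y) ∧ fo U Γ m (β y) (insert y F)

/-- the goal. -/
def Qs (Γ : Finset ℕ → Set ℕ) (m : ℕ) (F : Finset ℕ) : Prop :=
  Nn U Γ m (KK U 0 (m + 1) m) F ∨ ∃ v, ¬ Pv U Γ v F

variable {U}

theorem star {Γ : Finset ℕ → Set ℕ} {m : ℕ} {K : T U m → Prop} {F : Finset ℕ}
    (hU : ∀ v : ℕ, ∀ᶠ y in (U : Filter ℕ), v < y) (h : ¬ Nn U Γ m K F) :
    {γ | ∀ᶠ y in (U : Filter ℕ), K γ ∧ fo U Γ m γ (insert y F)}.Finite ∧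
    ∀ᶠ y in (U : Filter ℕ), ∀ γ, K γ ∧ fo U Γ m γ (insert y F) →
      ∀ᶠ y in (U : Filter ℕ), K γ ∧ fo U Γ m γ (insert y F) := by
  classical
  constructor
  · by_contra hinf
    have hinf' : {γ | ∀ᶠ y in (U : Filter ℕ), K γ ∧ fo U Γ m γ (insert y F)}.Infinite := hinf
    let z := Set.Infinite.natEmbedding _ hinf'
    let good : ℕ → ℕ → Prop := fun y t => ∀ s ≤ t, K (z s) ∧ fo U Γ m (z s) (insert y F)
    have hgood : ∀ t, ∀ᶠ y in (U : Filter ℕ), good y t := by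
      intro t
      have : ∀ᶠ y in (U : Filter ℕ), ∀ s ∈ Finset.range (t + 1), K (z s) ∧ fo U Γ m (z s) (insert y F) := by
        rw [Filter.eventually_all_finset]
        intro s _
        exact (z s).2
      filter_upwards [this] with y hy s hs
      exact hy s (Finset.mem_range.2 (by omega))
    apply h
    refine ⟨fun y => (z (Nat.findGreatest (good y) y)).1, ?_, ?_⟩
    · intro γ
      by_cases hγ : ∃ s, (z s).1 = γ
      · obtain ⟨s, rfl⟩ := hγ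
        filter_upwards [hgood (s + 1), hU (s + 1)] with y hy1 hy2 hc
        have h1 : s + 1 ≤ Nat.findGreatest (good y) y := Nat.le_findGreatest hy2.le hy1
        have h2 := z.injective (Subtype.ext hc)
        omega
      · exact Eventually.of_forall fun y hc => hγ ⟨_, hc⟩
    · filter_upwards [hgood 0] with y hy
      have := Nat.findGreatest_spec (P := good y) (Nat.zero_le y) hy
      exact this _ le_rfl
  · by_contra hc
    have hc' := Ultrafilter.eventually_not.2 hc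
    apply h
    have hex : ∀ᶠ y in (U : Filter ℕ), ∃ γ, (K γ ∧ fo U Γ m γ (insert y F)) ∧
        ¬ ∀ᶠ y in (U : Filter ℕ), K γ ∧ fo U Γ m γ (insert y F) := by
      filter_upwards [hc'] with y hy
      obtain ⟨γ, hγ⟩ := not_forall.1 hy
      obtain ⟨h1, h2⟩ := Classical.not_imp.1 hγ
      exact ⟨γ, h1, h2⟩
    obtain ⟨y0, γ0, _⟩ := hex.exists
    let β : ℕ → T U m := fun y => if hy : ∃ γ, (K γ ∧ fo U Γ m γ (insert y F)) ∧
        ¬ ∀ᶠ y in (U : Filter ℕ), K γ ∧ fo U Γ m γ (insert y F) then hy.choose else γ0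
    have hβ : ∀ᶠ y in (U : Filter ℕ), (K (β y) ∧ fo U Γ m (β y) (insert y F)) ∧
        ¬ ∀ᶠ y' in (U : Filter ℕ), K (β y) ∧ fo U Γ m (β y) (insert y' F) := by
      filter_upwards [hex] with y hy
      have : β y = hy.choose := dif_pos hy
      rw [this]
      exact hy.choose_spec
    refine ⟨β, ?_, hβ.mono fun y hy => hy.1⟩
    intro γ
    by_contra hγ
    have hγ' : ∀ᶠ y in (U : Filter ℕ), β y = γ :=
      (Ultrafilter.eventually_not.2 hγ).mono fun y hy => not_not.1 hy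
    obtain ⟨y1, h1, h2⟩ := (hβ.and hγ').exists
    apply h1.2
    filter_upwards [hβ, hγ'] with y h3 h4
    rw [h2, ← h4]
    exact h3.1

theorem claimA {Γ : Finset ℕ → Set ℕ} {m : ℕ}
    (hU : ∀ v : ℕ, ∀ᶠ y in (U : Filter ℕ), v < y)
    (hΓ : ∀ F : Finset ℕ, ∀ᶠ y in (U : Filter ℕ), Γ F ⊆ Γ (insert y F)) {l : ℕ}
    (hA : ∀ v F, Bar (U : Filter ℕ) (fun F' => (∃ γ : T U l, KK U v l l γ ∧ fo U Γ l γ F') ∨
      Qs U Γ m F') F) (v : ℕ) (F : Finset ℕ) :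
    Bar (U : Filter ℕ) (fun F' => Nn U Γ l (KK U v (l + 1) l) F' ∨ Qs U Γ m F') F := by
  by_contra hb
  set K := KK U v (l + 1) l with hK
  set W : Finset ℕ → Prop := fun F' => Nn U Γ l K F' ∨ Qs U Γ m F' with hW
  -- basic facts on the tree
  have hs : ∀ F, ¬ Bar (U : Filter ℕ) W F →
      {γ | ∀ᶠ y in (U : Filter ℕ), K γ ∧ fo U Γ l γ (insert y F)}.Finite ∧
      ∀ᶠ y in (U : Filter ℕ), (¬ Bar (U : Filter ℕ) W (insert y F)) ∧
        ∀ γ, K γ ∧ fo U Γ l γ (insert y F) →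
        ∀ᶠ y in (U : Filter ℕ), K γ ∧ fo U Γ l γ (insert y F) := by
    intro F hF
    obtain ⟨h1, h2⟩ := not_bar hF
    obtain ⟨h3, h4⟩ := star hU (fun hc => h1 (Or.inl hc))
    exact ⟨h3, h2.and h4⟩
  obtain ⟨hfin, hev⟩ := hs F hb
  set Z := {γ | ∀ᶠ y in (U : Filter ℕ), K γ ∧ fo U Γ l γ (insert y F)} with hZ
  obtain ⟨y1, hy1, hy1'⟩ := hev.exists
  let I : Finset ℕ → Prop := fun F' => (¬ Bar (U : Filter ℕ) W F') ∧ ∀ γ, K γ ∧ fo U Γ l γ F' → γ ∈ Z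
  have hI1 : I (insert y1 F) := ⟨hy1, fun γ hγ => hy1' γ hγ⟩
  have hI : ∀ F', I F' → ∀ᶠ y in (U : Filter ℕ), I (insert y F') := by
    intro F' hF'
    filter_upwards [(hs F' hF'.1).2] with y hy
    refine ⟨hy.1, fun γ hγ => hF'.2 γ ?_⟩
    have h1 := hy.2 γ hγ
    exact ⟨hγ.1, fo_step (h1.mono fun _ h => h.2)⟩
  -- a bound
  obtain ⟨v', hv', hbound⟩ : ∃ v', v ≤ v' ∧ ∀ ζ ∈ Z, ∀ b γ, KK U b l l γ → ζ = ins U b l γ → b ≤ v' := by
    have : ∀ ζ ∈ Z, ∃ v', ∀ b γ, KK U b l l γ → ζ = ins U b l γ → b ≤ v' := by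
      intro ζ _
      by_cases hex : ∃ b γ, KK U b l l γ ∧ ζ = ins U b l γ
      · obtain ⟨b, γ, h1, h2⟩ := hex
        refine ⟨b, fun b' γ' h3 h4 => (ins_det h3 h1 (h4.symm.trans h2)).le⟩
      · exact ⟨0, fun b γ h1 h2 => absurd ⟨b, γ, h1, h2⟩ hex⟩
    choose! f hf using this
    refine ⟨max v (hfin.toFinset.sup f), le_max_left _ _, fun ζ hζ b γ h1 h2 => ?_⟩
    exact (hf ζ hζ b γ h1 h2).trans ((Finset.le_sup (f := f) (hfin.mem_toFinset.2 hζ)).trans (le_max_right _ _))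
  have hP : Pv U Γ v' (insert y1 F) := by
    by_contra hc
    exact hI1.1 (Bar.base (Or.inr (Or.inr ⟨v', hc⟩)))
  obtain ⟨F2, hF2, b, hb1, hb2⟩ := Bar.meet hI hP hI1
  let I' : Finset ℕ → Prop := fun F' => I F' ∧ b ∈ Γ F'
  have hI' : ∀ F', I' F' → ∀ᶠ y in (U : Filter ℕ), I' (insert y F') := by
    intro F' hF'
    filter_upwards [hI F' hF'.1, hΓ F'] with y h1 h2
    exact ⟨h1, h2 hF'.2⟩
  obtain ⟨F3, hF3, h3⟩ := Bar.meet hI' (hA b F2) ⟨hF2, hb1⟩
  rcases h3 with ⟨γ, hγ1, hγ2⟩ | h3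
  · have h4 : ins U b l γ ∈ Z :=
      hF3.1.2 _ ⟨KK_ins (lt_of_le_of_lt hv' hb2) hγ1, fo_ins hΓ hF3.2 hγ2⟩
    have := hbound _ h4 b γ hγ1 rfl
    omega
  · exact hF3.1.1 (Bar.base (Or.inr h3))

theorem claim {Γ : Finset ℕ → Set ℕ} {m : ℕ}
    (hU : ∀ v : ℕ, ∀ᶠ y in (U : Filter ℕ), v < y)
    (hΓ : ∀ F : Finset ℕ, ∀ᶠ y in (U : Filter ℕ), Γ F ⊆ Γ (insert y F)) (F : Finset ℕ) :
    Bar (U : Filter ℕ) (Qs U Γ m) F := by
  have hA : ∀ l, ∀ v F, Bar (U : Filter ℕ) (fun F' => (∃ γ : T U l, KK U v l l γ ∧ fo U Γ l γ F') ∨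
      Qs U Γ m F') F := by
    intro l
    induction l with
    | zero =>
      intro v F
      refine Bar.base (Or.inl ⟨(∅ : Finset ℕ), ⟨fun x hx => absurd hx (Finset.notMem_empty x), rfl⟩, ?_⟩)
      exact Bar.base (fun x hx => absurd hx (Finset.notMem_empty x))
    | succ l ih =>
      intro v F
      refine (claimA hU hΓ ih v F).mono fun F' hF' => ?_
      rcases hF' with ⟨β, h1, h2⟩ | h
      · refine Or.inl ⟨mk U β, ⟨fun γ => ?_, ?_⟩, Bar.base ?_⟩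
        · filter_upwards [h1 γ, ev_mk β] with y h3 h4
          rw [h4]
          exact h3
        · filter_upwards [h2, ev_mk β] with y h3 h4
          rw [h4]
          exact h3.1
        · filter_upwards [h2, ev_mk β] with y h3 h4
          rw [h4]
          exact h3.2
      · exact Or.inr h
  refine (claimA hU hΓ (hA m) 0 F).mono fun F' hF' => ?_
  rcases hF' with h | h
  · exact Or.inl h
  · exact h

end Pool.Agent.Helper227.SOC
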