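import Mathlib

set_option autoImplicit false
open Filter

namespace Pool.Agent.Helper227.SOC

/-- ranked bar: `Rk G Q α F` says that from the finite set `F`, adding elements in `G`-large sets,
one has to reach a finite set with property `Q`, with rank at most `α`. -/
inductive Rk (G : Filter ℕ) (Q : Finset ℕ → Prop) : Ordinal.{0} → Finset ℕ → Prop
  | base (α : Ordinal.{0}) (F : Finset ℕ) (h : Q F) : Rk G Q α F
  | step (α : Ordinal.{0}) (F : Finset ℕ) (A : Set ℕ) (g : ℕ → Ordinal.{0}) (hA : A ∈ G)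
      (hg : ∀ y ∈ A, g y < α) (h : ∀ y ∈ A, Rk G Q (g y) (insert y F)) : Rk G Q α F

/-- every way of adding elements from `G`-large sets reaches `Q`. -/
def Bar (G : Filter ℕ) (Q : Finset ℕ → Prop) (F : Finset ℕ) : Prop := ∃ α, Rk G Q α F

/-- the rank. -/
noncomputable def rk (G : Filter ℕ) (Q : Finset ℕ → Prop) (F : Finset ℕ) : Ordinal.{0} :=
  sInf {α | Rk G Q α F}

variable {G : Filter ℕ} {Q Q' : Finset ℕ → Prop} {F : Finset ℕ}

theorem Bar.base (h : Q F) : Bar G Q F := ⟨0, Rk.base 0 F h⟩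

theorem Bar.rk_spec (h : Bar G Q F) : Rk G Q (rk G Q F) F := csInf_mem (s := {α | Rk G Q α F}) h

theorem rk_le {α : Ordinal.{0}} (h : Rk G Q α F) : rk G Q F ≤ α := csInf_le' h

theorem Bar.step (h : ∀ᶠ y in G, Bar G Q (insert y F)) : Bar G Q F := by
  refine ⟨⨆ y : ℕ, (Order.succ (rk G Q (insert y F))), Rk.step _ F {y | Bar G Q (insert y F)}
    (fun y => rk G Q (insert y F)) h ?_ ?_⟩
  · intro y _
    exact lt_of_lt_of_le (Order.lt_succ _) (Ordinal.le_iSup (fun y : ℕ => Order.succ (rk G Q (insert y F))) y)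
  · intro y hy
    exact Bar.rk_spec hy

theorem Bar.cases (h : Bar G Q F) :
    Q F ∨ ∀ᶠ y in G, Bar G Q (insert y F) ∧ rk G Q (insert y F) < rk G Q F := by
  have h1 := h.rk_spec
  rcases h1 with ⟨_, _, h⟩ | ⟨_, _, A, g, hA, hg, h⟩
  · exact Or.inl h
  · refine Or.inr (mem_of_superset hA fun y hy => ⟨⟨_, h y hy⟩, lt_of_le_of_lt (rk_le (h y hy)) (hg y hy)⟩)

theorem Bar.ind {C : Finset ℕ → Prop} (h0 : ∀ F, Q F → C F)
    (h1 : ∀ F, (∀ᶠ y in G, C (insert y F)) → C F) (h : Bar G Q F) : C F := by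
  obtain ⟨α, h⟩ := h
  induction h with
  | base α F h => exact h0 F h
  | step α F A g hA hg h ih => exact h1 F (mem_of_superset hA fun y hy => ih y hy)

theorem Bar.mono (hQ : ∀ F, Q F → Q' F) (h : Bar G Q F) : Bar G Q' F :=
  h.ind (fun F hF => Bar.base (hQ F hF)) (fun _ hF => Bar.step hF)

theorem Bar.mono_inv {I : Finset ℕ → Prop} (hI : ∀ F, I F → ∀ᶠ y in G, I (insert y F))
    (hQ : ∀ F, I F → Q F → Q' F) (h : Bar G Q F) (hF : I F) : Bar G Q' F := by
  refine h.ind (C := fun F => I F → Bar G Q' F) (fun F h1 h2 => Bar.base (hQ F h2 h1)) ?_ hF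
  intro F h1 h2
  refine Bar.step ?_
  filter_upwards [h1, hI F h2] with y hy1 hy2 using hy1 hy2

/-- substitution. -/
theorem Bar.bind (h : Bar G Q F) (hQ : ∀ F, Q F → Bar G Q' F) : Bar G Q' F :=
  h.ind hQ (fun _ hF => Bar.step hF)

theorem Bar.meet [G.NeBot] {I : Finset ℕ → Prop} (hI : ∀ F, I F → ∀ᶠ y in G, I (insert y F))
    (h : Bar G Q F) (hF : I F) : ∃ F', I F' ∧ Q F' := by
  refine h.ind (C := fun F => I F → ∃ F', I F' ∧ Q F') (fun F h1 h2 => ⟨F, h2, h1⟩) ?_ hF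
  intro F h1 h2
  obtain ⟨y, hy1, hy2⟩ := (h1.and (hI F h2)).exists
  exact hy1 hy2

/-- transfer from one filter to another. -/
theorem Bar.transfer {G' : Filter ℕ} (hQ : ∀ F, Q F → Bar G' Q' F)
    (hA : ∀ F, (∀ᶠ y in G, Bar G Q (insert y F) ∧ rk G Q (insert y F) < rk G Q F) →
      ∀ᶠ y in G', Bar G Q (insert y F) ∧ rk G Q (insert y F) < rk G Q F)
    (h : Bar G Q F) : Bar G' Q' F := by
  generalize hα : rk G Q F = α
  induction α using WellFoundedLT.induction generalizing F with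
  | _ α ih =>
    subst hα
    rcases h.cases with h1 | h1
    · exact hQ F h1
    · refine Bar.step ?_
      filter_upwards [hA F h1] with y hy
      exact ih _ hy.2 hy.1 rfl

theorem not_bar {U : Ultrafilter ℕ} (h : ¬ Bar (U : Filter ℕ) Q F) :
    ¬ Q F ∧ ∀ᶠ y in (U : Filter ℕ), ¬ Bar (U : Filter ℕ) Q (insert y F) := by
  refine ⟨fun hQ => h (Bar.base hQ), ?_⟩
  by_contra hc
  refine h (Bar.step ?_)
  by_contra hc2
  exact hc (Ultrafilter.eventually_not.2 hc2)

end Pool.Agent.Helper227.SOC
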