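import Pool.Agent.Helper227.SOC.Plan

set_option autoImplicit false
open Filter

namespace Pool.Agent.Helper227.SOC

/-- satisfied requirement. -/
def Sat {ι C : Type} (Γ : ι → Finset ℕ → Set ℕ) (n : ℕ) (c0 : Finset ℕ → C) (o : (ι × C) ⊕ ℕ)
    (F : Finset ℕ) (Pr : ι → ℕ → Prop) : Prop :=
  match o with
  | Sum.inl p => (∃ v, Pr p.1 v) ∨ ∃ B : Finset ℕ, B.card = n ∧ (∀ x ∈ B, x ∈ Γ p.1 F) ∧ c0 B ≠ p.2
  | Sum.inr N => N ≤ F.card

theorem comb {ι : Type} [Countable ι] (Γ : ι → Finset ℕ → Set ℕ)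
    (hΓ : ∀ i F F', Ext F F' → Γ i F ⊆ Γ i F') (m0 k : ℕ) :
    ∃ c0 : Finset ℕ → Fin (k + 1), ∀ d : Finset ℕ → Fin k, ∃ (F : ℕ → Finset ℕ) (j : Fin k),
      (∀ t, Ext (F t) (F (t + 1))) ∧ (∀ N, ∃ t, N ≤ (F t).card) ∧
      (∀ t, ∀ X, X ⊆ F t → X.card = m0 + 1 → d X = j) ∧
      ∀ (i : ι) (col : Fin (k + 1)), (∃ v, ∀ t, ∀ b ∈ Γ i (F t), b ≤ v) ∨
        ∃ t, ∃ B : Finset ℕ, B.card = m0 + 1 ∧ (∀ x ∈ B, x ∈ Γ i (F t)) ∧ c0 B ≠ col := by
  classical
  let U : Ultrafilter ℕ := hyperfilter ℕ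
  have hU : ∀ v : ℕ, ∀ᶠ y in (U : Filter ℕ), v < y := by
    intro v
    have h1 : (U : Filter ℕ) ≤ cofinite := hyperfilter_le_cofinite
    refine h1 ?_
    have : {y : ℕ | ¬ v < y}.Finite := (Set.finite_Iic v).subset fun y hy => not_lt.1 hy
    exact this
  have hΓU : ∀ i, ∀ F : Finset ℕ, ∀ᶠ y in (U : Filter ℕ), Γ i F ⊆ Γ i (insert y F) := by
    intro i F
    have : ∀ᶠ y in (U : Filter ℕ), ∀ z ∈ F, z < y := by
      rw [Filter.eventually_all_finset]
      intro z _
      exact hU z
    filter_upwards [this] with y hy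
    exact hΓ i _ _ (Ext.insert hy)
  obtain ⟨B, hBc, hBK, hBd, hBs⟩ := exists_B U Γ (m0 + 1)
  obtain ⟨Q0, hcg, hnb, q1, q2, q3, q4, q5, q6, q7, q8⟩ := exists_Q U Γ m0 B hBc
  have r6 : ∀ m, ∀ β ∈ B (m + 1), ∀ᶠ y in Q0, ev U β y ∈ B m := by
    intro m β hβ
    refine q6 m β hβ ?_
    have := hBK _ β hβ
    filter_upwards [this.2] with y hy
    exact hBd m β hβ y hy
  have r7 : ∀ m, ∀ β ∈ B (m + 1), ∀ x ∈ B m, ∀ᶠ y in Q0, ev U β y ≠ x := by
    intro m β hβ x hx
    exact q7 m β hβ x hx ((hBK _ β hβ).1 x)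
  have r8 : ∀ m, ∀ β ∈ B (m + 1), ∀ β' ∈ B (m + 1), β ≠ β' → ∀ᶠ y in Q0, ev U β y ≠ ev U β' y := by
    intro m β hβ β' hβ' hne
    exact q8 m β hβ β' hβ' (T_ne hne)
  obtain ⟨c0, hc0⟩ := tower (k := k) (C := Fin (k + 1)) U B hBc Q0 r6 r7 r8
  refine ⟨c0, fun d => ?_⟩
  obtain ⟨Q, cs, ds, hcs0, hds0, hQ, _, hcs, hds, hhyp⟩ := hc0 d m0
  have hQn : Q.NeBot := by
    have h1 := hhyp ∅ (fun a ha => absurd ha (Finset.notMem_empty a))
      (fun a ha => absurd ha (Finset.notMem_empty a))
    obtain ⟨y, _⟩ := h1.exists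
    rw [neBot_iff]
    rintro rfl
    exact h1 (by simp)
  -- the filters
  let G : Fin (k + 1) → Filter ℕ := fun col => colF Q (B (m0 + 1)) (fun β y => cs m0 (ev U β y) = col)
  have hGQ : ∀ col, G col ≤ Q := fun col => colF_le _ _ _
  have hGn : ∀ col, (G col).NeBot := by
    intro col
    refine colF_neBot _ _ _ fun Φ hΦ => ?_
    refine (hhyp (Φ.image fun β => (β, col)) ?_ ?_).mono ?_
    · intro a ha
      obtain ⟨β, hβ, rfl⟩ := Finset.mem_image.1 ha
      exact hΦ β hβ
    · intro a ha b hb _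
      obtain ⟨β, _, rfl⟩ := Finset.mem_image.1 ha
      obtain ⟨β', _, rfl⟩ := Finset.mem_image.1 hb
      rfl
    · intro y hy β hβ
      exact hy (β, col) (Finset.mem_image.2 ⟨β, hβ, rfl⟩)
  -- plans
  have hplan : ∀ col i F, Bar (G col) (Goal U (Γ i) (m0 + 1) c0 col) F := by
    intro col i F
    have hGQ0 : G col ≤ Q0 := (hGQ col).trans hQ
    have hcl : Bar (U : Filter ℕ) (Qs U (Γ i) m0) F := claim hU (hΓU i) F
    refine Bar.transfer (fun F' hF' => ?_) (fun F' hF' => hGQ0 (q1 i F' hF')) hcl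
    rcases hF' with h | h
    · obtain ⟨β, hβ, hβ2⟩ := hBs m0 i F' h
      refine Bar.step ?_
      filter_upwards [hGQ0 (q3 i m0 β hβ F' hβ2), hGQ0 (r6 m0 β hβ),
        colF_mem Q (B (m0 + 1)) (fun β y => cs m0 (ev U β y) = col) hβ] with y h1 h2 h3
      have := planII (U := U) (Γ := Γ i) (m0 := m0) (n := m0 + 1) hBK (G := G col)
        (fun m β hβ => hGQ0 (r6 m β hβ)) (fun m γ hγ F hF => hGQ0 (q2 i m γ hγ F hF))
        (fun m β hβ F hF => hGQ0 (q3 i m β hβ F hF)) (cs := cs)
        (fun m hm β hβ => hGQ col (hcs m hm β hβ)) (col := col) m0 le_rfl _ h2 _ h1 h3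
      rw [hcs0] at this
      exact this
    · exact Bar.base (Or.inl h)
  -- invariant
  let Inv : Set (Fin k × ι × ℕ) → (Fin k → Finset ℕ) → Prop := fun Pr F =>
    (∀ j, ∀ m X, X ⊆ F j → X.card + m = m0 + 1 → X.Nonempty → ds m X = j) ∧
    ∀ p ∈ Pr, ¬ Pv U (Γ p.2.1) p.2.2 (F p.1)
  let e : ℕ → Fin k := fun y => ds m0 {y}
  have hstep : ∀ (Pr : Finset (Fin k × ι × ℕ)) F, Inv Pr F → ∀ᶠ y in Q,
      Inv Pr (Function.update F (e y) (insert y (F (e y)))) := by
    intro Pr F hF
    have a1 : ∀ᶠ y in Q, ∀ p ∈ Pr, ¬ Pv U (Γ p.2.1) p.2.2 (insert y (F p.1)) := by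
      rw [Filter.eventually_all_finset]
      intro p hp
      refine hQ (q4 _ _ _ ?_)
      exact (not_bar (hF.2 p hp)).2
    have a2 : ∀ᶠ y in Q, ∀ j, ∀ X ∈ (F j).powerset, ∀ m ∈ Finset.range m0,
        ds m (insert y X) = ds (m + 1) X := by
      rw [Filter.eventually_all]
      intro j
      rw [Filter.eventually_all_finset]
      intro X _
      rw [Filter.eventually_all_finset]
      intro m hm
      exact hds m (Finset.mem_range.1 hm) X
    filter_upwards [a1, a2] with y h1 h2
    refine ⟨fun j m X hX hc hne => ?_, fun p hp => ?_⟩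
    · by_cases hj : j = e y
      · subst hj
        rw [Function.update_self] at hX
        by_cases hy : y ∈ X
        · have hX' : X.erase y ⊆ F (e y) := by
            intro x hx
            rw [Finset.mem_erase] at hx
            exact (Finset.mem_insert.1 (hX hx.2)).resolve_left hx.1
          have hXi : insert y (X.erase y) = X := Finset.insert_erase hy
          have hc' : (X.erase y).card + 1 = X.card := Finset.card_erase_add_one hy
          by_cases hne' : (X.erase y).Nonempty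
          · have hpos := hne'.card_pos
            have := h2 (e y) (X.erase y) (Finset.mem_powerset.2 hX') m (Finset.mem_range.2 (by omega))
            rw [hXi] at this
            rw [this]
            exact hF.1 (e y) (m + 1) (X.erase y) hX' (by omega) hne'
          · rw [Finset.not_nonempty_iff_eq_empty] at hne'
            rw [hne'] at hXi hc'
            simp only [Finset.card_empty, zero_add] at hc'
            have hm : m = m0 := by omega
            subst hm
            rw [← hXi]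
            rfl
        · refine hF.1 (e y) m X ?_ hc hne
          intro x hx
          rcases Finset.mem_insert.1 (hX hx) with rfl | h
          · exact absurd hx hy
          · exact h
      · rw [Function.update_of_ne hj] at hX
        exact hF.1 j m X hX hc hne
    · by_cases hj : p.1 = e y
      · rw [hj, Function.update_self, ← hj]
        exact h1 p hp
      · rw [Function.update_of_ne hj]
        exact hF.2 p hp
  -- states
  let St := {s : (Fin k → Finset ℕ) × Finset (Fin k × ι × ℕ) // Inv (s.2 : Set _) s.1}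
  have hreq : ∀ (o : Fin k → (ι × Fin (k + 1)) ⊕ ℕ) (s : St), ∃ s' : St,
      (∀ j, Ext (s.1.1 j) (s'.1.1 j)) ∧ s.1.2 ⊆ s'.1.2 ∧
      ∃ j, Sat Γ (m0 + 1) c0 (o j) (s'.1.1 j) (fun i v => (j, i, v) ∈ s'.1.2) := by
    intro o s
    obtain ⟨col, hcol⟩ : ∃ col : Fin (k + 1), ∀ j, Sum.elim (fun p : ι × Fin (k + 1) => p.2)
        (fun _ => (0 : Fin (k + 1))) (o j) ≠ col := by
      by_contra hcon
      push Not at hcon
      have hs : Function.Surjective fun j : Fin k => Sum.elim (fun p : ι × Fin (k + 1) => p.2)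
        (fun _ => (0 : Fin (k + 1))) (o j) := hcon
      have := Fintype.card_le_of_surjective _ hs
      simp at this
    have := hGn col
    let Gl : Fin k → Finset ℕ → Prop := fun j => Sum.elim
      (fun p : ι × Fin (k + 1) => Goal U (Γ p.1) (m0 + 1) c0 col) (fun N F => N ≤ F.card) (o j)
    have hbar : ∀ j F, Bar (G col) (Gl j) F := by
      intro j F
      rcases hoj : o j with p | N
      · have hgl : Gl j = Goal U (Γ p.1) (m0 + 1) c0 col := by
          simp only [Gl, hoj, Sum.elim_inl]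
        rw [hgl]
        exact hplan col p.1 F
      · have hgl : Gl j = fun F => N ≤ F.card := by
          simp only [Gl, hoj, Sum.elim_inr]
        rw [hgl]
        have hk : ∀ r F, N ≤ F.card + r → Bar (G col) (fun F : Finset ℕ => N ≤ F.card) F := by
          intro r
          induction r with
          | zero => exact fun F hF => Bar.base hF
          | succ r ih =>
            intro F hF
            refine Bar.step ?_
            have : ∀ᶠ y in G col, ∀ z ∈ F, z < y := by
              rw [Filter.eventually_all_finset]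
              intro z _
              exact ((hGQ col).trans hQ) (q5 z (hU z))
            filter_upwards [this] with y hy
            refine ih _ ?_
            rw [Finset.card_insert_of_notMem (fun h => lt_irrefl _ (hy y h))]
            omega
        exact hk N F (by omega)
    obtain ⟨F', hF'1, hF'2, j, hF'3⟩ := joint (G col) (fun v => ((hGQ col).trans hQ) (q5 v (hU v))) e Gl
      (Inv (↑s.1.2 : Set (Fin k × ι × ℕ))) (fun F hF => (hstep s.1.2 F hF).filter_mono (hGQ col))
      s.1.1 s.2 (fun j => hbar j _)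
    rcases hoj : o j with p | N
    · have hgl : Gl j = Goal U (Γ p.1) (m0 + 1) c0 col := by
        simp only [Gl, hoj, Sum.elim_inl]
      rw [hgl] at hF'3
      rcases hF'3 with ⟨v, hv⟩ | ⟨B', hB'1, hB'2, hB'3⟩
      · refine ⟨⟨(F', insert (j, p.1, v) s.1.2), hF'2.1, ?_⟩, hF'1, Finset.subset_insert _ _, j, ?_⟩
        · intro q hq
          rcases Finset.mem_insert.1 (Finset.mem_coe.1 hq) with rfl | hq
          · exact hv
          · exact hF'2.2 q hq
        · rw [hoj]
          exact Or.inl ⟨v, Finset.mem_insert_self _ _⟩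
      · refine ⟨⟨(F', s.1.2), hF'2⟩, hF'1, Finset.Subset.refl _, j, ?_⟩
        rw [hoj]
        refine Or.inr ⟨B', hB'1, hB'2, ?_⟩
        rw [hB'3]
        have := hcol j
        rw [hoj] at this
        exact this.symm
    · have hgl : Gl j = fun F => N ≤ F.card := by
        simp only [Gl, hoj, Sum.elim_inr]
      rw [hgl] at hF'3
      refine ⟨⟨(F', s.1.2), hF'2⟩, hF'1, Finset.Subset.refl _, j, ?_⟩
      rw [hoj]
      exact hF'3
  -- the sequence
  have s0 : St := ⟨(fun _ => ∅, ∅), fun j m X hX _ hne => by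
      rw [Finset.subset_empty.1 hX] at hne
      exact absurd hne Finset.not_nonempty_empty, fun p hp => by simp at hp⟩
  obtain ⟨en, hen⟩ := exists_surjective_nat (Fin k → (ι × Fin (k + 1)) ⊕ ℕ)
  choose nx nx1 nx2 nx3 using hreq
  let σ : ℕ → St := fun t => Nat.rec s0 (fun t s => nx (en t) s) t
  have hσ : ∀ t, σ (t + 1) = nx (en t) (σ t) := fun _ => rfl
  have hext1 : ∀ t j, Ext ((σ t).1.1 j) ((σ (t + 1)).1.1 j) := fun t j => by
    rw [hσ]
    exact nx1 _ _ j
  have hext : ∀ t t' j, t ≤ t' → Ext ((σ t).1.1 j) ((σ t').1.1 j) := by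
    intro t t' j htt
    induction t', htt using Nat.le_induction with
    | base => exact Ext.refl _
    | succ t' _ ih => exact ih.trans (hext1 t' j)
  have hpr : ∀ t t', t ≤ t' → (σ t).1.2 ⊆ (σ t').1.2 := by
    intro t t' htt
    induction t', htt using Nat.le_induction with
    | base => exact Finset.Subset.refl _
    | succ t' _ ih => exact ih.trans (by rw [hσ]; exact nx2 _ _)
  obtain ⟨j, hj⟩ : ∃ j : Fin k, ∀ x : (ι × Fin (k + 1)) ⊕ ℕ, ∃ t,
      Sat Γ (m0 + 1) c0 x ((σ t).1.1 j) (fun i v => (j, i, v) ∈ (σ t).1.2) := by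
    by_contra hcon
    push Not at hcon
    choose o ho using hcon
    obtain ⟨t, ht⟩ := hen o
    obtain ⟨j, hj⟩ := nx3 (en t) (σ t)
    rw [← hσ, ht] at hj
    exact ho j (t + 1) hj
  refine ⟨fun t => (σ t).1.1 j, j, fun t => hext1 t j, ?_, ?_, ?_⟩
  · intro N
    obtain ⟨t, ht⟩ := hj (Sum.inr N)
    exact ⟨t, ht⟩
  · intro t X hX hc
    have := (σ t).2.1 j 0 X hX (by omega) (Finset.card_pos.1 (by omega))
    rw [hds0] at this
    exact this
  · intro i col
    obtain ⟨t, ht⟩ := hj (Sum.inl (i, col))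
    rcases ht with ⟨v, hv⟩ | ⟨B', h1, h2, h3⟩
    · left
      refine ⟨v, fun t' b hb => ?_⟩
      by_contra hvb
      have hb' : b ∈ Γ i ((σ (max t t')).1.1 j) :=
        hΓ i _ _ (hext t' (max t t') j (le_max_right _ _)) hb
      have := (σ (max t t')).2.2 (j, i, v) (hpr t _ (le_max_left _ _) hv)
      exact this (Bar.base ⟨b, hb', not_le.1 hvb⟩)
    · exact Or.inr ⟨t, B', h1, h2, h3⟩

end Pool.Agent.Helper227.SOC
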