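import Pool.Agent.Helper227.SOC.Comb
import Pool.Agent.Helper227.Use
import Pool.Agent.Helper227.Univ

set_option autoImplicit false
open Filter Encodable

namespace Pool.Agent.Helper227.SOC

open Nat.Partrec (Code)

/-- one step of computation. -/
def stp3 (c : Code) (r : ℕ) (x : List Bool × ℕ × ℕ) : Prop := (c.evaln r (encode x)).isSome = true

theorem exists_code3 {E : List Bool × ℕ × ℕ → Prop} (hE : S1 E) :
    ∃ c : Code, ∀ x, E x ↔ ∃ r, stp3 c r x := by
  obtain ⟨c, hc⟩ := Nat.Partrec.Code.exists_code.1 hE.re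
  refine ⟨c, fun x => ?_⟩
  have h1 : (c.eval (encode x)).Dom ↔ E x := by
    rw [hc]
    simp [Part.assert]
  rw [← h1]
  constructor
  · intro h
    obtain ⟨y, hy⟩ := Part.dom_iff_mem.1 h
    obtain ⟨k, hk⟩ := Nat.Partrec.Code.evaln_complete.1 hy
    exact ⟨k, Option.isSome_iff_exists.2 ⟨y, hk⟩⟩
  · rintro ⟨n, hn⟩
    obtain ⟨y, hy⟩ := Option.isSome_iff_exists.1 hn
    exact Part.dom_iff_mem.2 ⟨y, Nat.Partrec.Code.evaln_sound hy⟩

/-- `H` end-extends the finite set `F`. -/
def EE (F : Finset ℕ) (H : ℕ → Bool) : Prop :=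
  (∀ x ∈ F, H x = true) ∧ ∀ x, H x = true → x ∉ F → ∀ z ∈ F, z < x

/-- the operator given by a code: all elements output by all end-extensions. -/
def Gam (c : Code) (F : Finset ℕ) : Set ℕ :=
  {b | ∀ H : ℕ → Bool, EE F H → ∃ s r, stp3 c r (pre H s, b, 1)}

theorem Gam_mono (c : Code) (F F' : Finset ℕ) (h : Ext F F') : Gam c F ⊆ Gam c F' := by
  intro b hb H hH
  refine hb H ⟨fun x hx => hH.1 x (h.1 hx), fun x hx hxF z hz => ?_⟩
  by_cases hx' : x ∈ F'
  · exact h.2 x hx' hxF z hz
  · exact hH.2 x hx hx' z (h.1 hz)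

theorem comp_main (m0 k : ℕ) : ∃ c0 : Finset ℕ → Fin (k + 1), ∀ d : Finset ℕ → Fin k,
    ∃ H : ℕ → Bool, {x | H x = true}.Infinite ∧
      (∃ j, ∀ X : Finset ℕ, (∀ x ∈ X, H x = true) → X.card = m0 + 1 → d X = j) ∧
      ∀ Y : ℕ → Bool, Nat.RecursiveIn {chi H} (chi Y) → {x | Y x = true}.Infinite →
        ¬ ∃ col, ∀ B : Finset ℕ, (∀ x ∈ B, Y x = true) → B.card = m0 + 1 → c0 B = col := by
  classical
  obtain ⟨c0, hc0⟩ := comb Gam Gam_mono m0 k
  refine ⟨c0, fun d => ?_⟩
  obtain ⟨F, j, hF1, hF2, hF3, hF4⟩ := hc0 d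
  have hext : ∀ t t', t ≤ t' → Ext (F t) (F t') := by
    intro t t' htt
    induction t', htt using Nat.le_induction with
    | base => exact Ext.refl _
    | succ t' _ ih => exact ih.trans (hF1 t')
  let H : ℕ → Bool := fun x => decide (∃ t, x ∈ F t)
  have hH : ∀ x, H x = true ↔ ∃ t, x ∈ F t := fun x => decide_eq_true_iff
  have hEE : ∀ t, EE (F t) H := by
    intro t
    refine ⟨fun x hx => (hH x).2 ⟨t, hx⟩, fun x hx hxF z hz => ?_⟩
    obtain ⟨t', ht'⟩ := (hH x).1 hx
    exact (hext t (max t t') (le_max_left _ _)).2 x ((hext t' _ (le_max_right _ _)).1 ht') hxF z hz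
  have hfin : ∀ X : Finset ℕ, (∀ x ∈ X, H x = true) → ∃ t, X ⊆ F t := by
    intro X
    induction X using Finset.induction_on with
    | empty => exact fun _ => ⟨0, Finset.empty_subset _⟩
    | insert a X _ ih =>
      intro h
      obtain ⟨t, ht⟩ := ih fun x hx => h x (Finset.mem_insert_of_mem hx)
      obtain ⟨t', ht'⟩ := (hH a).1 (h a (Finset.mem_insert_self _ _))
      refine ⟨max t t', Finset.insert_subset ((hext t' _ (le_max_right _ _)).1 ht')
        (ht.trans (hext t _ (le_max_left _ _)).1)⟩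
  have hbig : ∀ s, ∃ t, ∃ z ∈ F t, s ≤ z := by
    intro s
    obtain ⟨t, ht⟩ := hF2 (s + 1)
    refine ⟨t, ?_⟩
    by_contra hcon
    push Not at hcon
    have : F t ⊆ Finset.range s := fun z hz => Finset.mem_range.2 (hcon z hz)
    have := Finset.card_le_card this
    rw [Finset.card_range] at this
    omega
  refine ⟨H, ?_, ⟨j, ?_⟩, ?_⟩
  · intro hfinite
    obtain ⟨t, ht⟩ := hF2 (hfinite.toFinset.card + 1)
    have : F t ⊆ hfinite.toFinset := fun x hx => hfinite.mem_toFinset.2 ((hH x).2 ⟨t, hx⟩)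
    have := Finset.card_le_card this
    omega
  · intro X hX hc
    obtain ⟨t, ht⟩ := hfin X hX
    exact hF3 t X ht hc
  · rintro Y hY hYinf ⟨col, hcol⟩
    obtain ⟨G, hG, mG, eG⟩ := recIn_graph hY
    obtain ⟨c, hc⟩ := exists_code3 hG
    have hYm : ∀ b, Y b = true ↔ ∃ s r, stp3 c r (pre H s, b, 1) := by
      intro b
      have h1 : (1 : ℕ) ∈ chi Y b ↔ ∃ s, G (pre H s, b, 1) := eG b 1
      have h2 : (1 : ℕ) ∈ chi Y b ↔ Y b = true := by
        unfold chi
        rw [Part.mem_some_iff]
        cases Y b <;> simp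
      rw [← h2, h1]
      exact exists_congr fun s => hc _
    have h1 : ∀ b, Y b = true → ∃ t, b ∈ Gam c (F t) := by
      intro b hb
      obtain ⟨s, r, hs⟩ := (hYm b).1 hb
      obtain ⟨t, z, hz, hsz⟩ := hbig s
      refine ⟨t, fun H' hH' => ⟨s, r, ?_⟩⟩
      have hpre : pre H' s = pre H s := by
        unfold pre
        refine List.map_congr_left fun x hx => ?_
        have hxs := List.mem_range.1 hx
        by_cases hxF : x ∈ F t
        · rw [hH'.1 x hxF, (hEE t).1 x hxF]
        · have a1 : H' x ≠ true := fun h => by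
            have := hH'.2 x h hxF z hz
            omega
          have a2 : H x ≠ true := fun h => by
            have := (hEE t).2 x h hxF z hz
            omega
          rw [Bool.eq_false_iff.2 a1, Bool.eq_false_iff.2 a2]
      rw [hpre]
      exact hs
    have h2 : ∀ t, ∀ b ∈ Gam c (F t), Y b = true := by
      intro t b hb
      exact (hYm b).2 (hb H (hEE t))
    rcases hF4 c col with ⟨v, hv⟩ | ⟨t, B, hB1, hB2, hB3⟩
    · apply hYinf
      refine (Set.finite_Iic v).subset fun b hb => ?_
      obtain ⟨t, ht⟩ := h1 b hb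
      exact hv t b ht
    · exact hB3 (hcol B (fun x hx => h2 t x (hB2 x hx)) hB1)

/-- Ramsey theorem, in the form of one more element. -/
theorem ramsey {C : Type} [Finite C] (n : ℕ) (c : Finset ℕ → C) (Y : Set ℕ) (hY : Y.Infinite) :
    ∃ (B : Finset ℕ) (col : C), ↑B ⊆ Y ∧ B.card = n + 1 ∧ ∀ X ⊆ B, X.card = n → c X = col := by
  classical
  have hne : (Filter.cofinite ⊓ 𝓟 Y).NeBot := by
    have := hY.cofinite_inf_principal_neBot
    exact this
  let V : Ultrafilter ℕ := Ultrafilter.of (Filter.cofinite ⊓ 𝓟 Y)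
  have hV : (V : Filter ℕ) ≤ Filter.cofinite ⊓ 𝓟 Y := Ultrafilter.of_le _
  have hVY : ∀ᶠ y in (V : Filter ℕ), y ∈ Y := (hV.trans inf_le_right) (mem_principal_self _)
  have hVc : ∀ F : Finset ℕ, ∀ᶠ y in (V : Filter ℕ), y ∉ F := by
    intro F
    refine (hV.trans inf_le_left) ?_
    have : {y : ℕ | ¬ y ∉ F}.Finite := F.finite_toSet.subset fun y hy => by simpa using hy
    exact this
  have hlim : ∀ f : ℕ → C, ∃ i, ∀ᶠ y in (V : Filter ℕ), f y = i := by
    intro f
    by_contra hcon
    push Not at hcon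
    have h1 : ∀ i, ∀ᶠ y in (V : Filter ℕ), f y ≠ i := hcon
    obtain ⟨y, hy⟩ := (Filter.eventually_all.2 h1).exists
    exact hy _ rfl
  choose L hL using hlim
  let cs : ℕ → Finset ℕ → C := fun m => Nat.rec c (fun _ f X => L fun y => f (insert y X)) m
  have hcs : ∀ m X, ∀ᶠ y in (V : Filter ℕ), cs m (insert y X) = cs (m + 1) X := fun m X => hL _
  let col := cs n ∅
  have key : ∀ r, ∃ B : Finset ℕ, ↑B ⊆ Y ∧ B.card = r ∧ ∀ m X, X ⊆ B → X.card + m = n → cs m X = col := by
    intro r
    induction r with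
    | zero =>
      refine ⟨∅, by simp, rfl, fun m X hX hc => ?_⟩
      rw [Finset.subset_empty.1 hX] at hc ⊢
      simp only [Finset.card_empty, zero_add] at hc
      subst hc
      rfl
    | succ r ih =>
      obtain ⟨B, hB1, hB2, hB3⟩ := ih
      have a1 : ∀ᶠ y in (V : Filter ℕ), ∀ X ∈ B.powerset, ∀ m ∈ Finset.range n,
          cs m (insert y X) = cs (m + 1) X := by
        rw [Filter.eventually_all_finset]
        intro X _
        rw [Filter.eventually_all_finset]
        intro m _
        exact hcs m X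
      obtain ⟨y, h1, h2, h3⟩ := (a1.and (hVY.and (hVc B))).exists
      refine ⟨insert y B, ?_, ?_, ?_⟩
      · rw [Finset.coe_insert]
        exact Set.insert_subset h2 hB1
      · rw [Finset.card_insert_of_notMem h3, hB2]
      · intro m X hX hc
        by_cases hy : y ∈ X
        · have hX' : X.erase y ⊆ B := by
            intro x hx
            rw [Finset.mem_erase] at hx
            exact (Finset.mem_insert.1 (hX hx.2)).resolve_left hx.1
          have hXi : insert y (X.erase y) = X := Finset.insert_erase hy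
          have hc' : (X.erase y).card + 1 = X.card := Finset.card_erase_add_one hy
          have := h1 (X.erase y) (Finset.mem_powerset.2 hX') m (Finset.mem_range.2 (by omega))
          rw [hXi] at this
          rw [this]
          exact hB3 (m + 1) _ hX' (by omega)
        · refine hB3 m X ?_ hc
          intro x hx
          rcases Finset.mem_insert.1 (hX hx) with rfl | h
          · exact absurd hx hy
          · exact h
  obtain ⟨B, h1, h2, h3⟩ := key (n + 1)
  exact ⟨B, col, h1, h2, fun X hX hc => h3 0 X hX (by omega)⟩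

/-- if all `n + 1`-sets are homogeneous then the whole set is. -/
theorem connect {C : Type} (n : ℕ) (c : Finset ℕ → C) (Y : Set ℕ)
    (h : ∀ B : Finset ℕ, ↑B ⊆ Y → B.card = n + 1 → ∀ X X', X ⊆ B → X' ⊆ B → X.card = n → X'.card = n →
      c X = c X') : ∀ X X' : Finset ℕ, ↑X ⊆ Y → ↑X' ⊆ Y → X.card = n → X'.card = n → c X = c X' := by
  classical
  have key : ∀ r, ∀ X X' : Finset ℕ, ↑X ⊆ Y → ↑X' ⊆ Y → X.card = n → X'.card = n →
      (X' \ X).card = r → c X = c X' := by
    intro r
    induction r with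
    | zero =>
      intro X X' _ _ h3 h4 h5
      have : X' ⊆ X := Finset.sdiff_eq_empty_iff_subset.1 (Finset.card_eq_zero.1 h5)
      rw [Finset.eq_of_subset_of_card_le this (by omega)]
    | succ r ih =>
      intro X X' h1 h2 h3 h4 h5
      obtain ⟨x, hx⟩ : (X' \ X).Nonempty := Finset.card_pos.1 (by omega)
      have hx' := Finset.mem_sdiff.1 hx
      obtain ⟨z, hz⟩ : (X \ X').Nonempty := by
        apply Finset.card_pos.1
        have a1 := Finset.card_sdiff_add_card_inter X X'
        have a2 := Finset.card_sdiff_add_card_inter X' X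
        rw [Finset.inter_comm] at a2
        omega
      have hz' := Finset.mem_sdiff.1 hz
      have hxz : x ≠ z := fun e => hx'.2 (e ▸ hz'.1)
      let X'' := insert x (X.erase z)
      have hX''Y : (X'' : Set ℕ) ⊆ Y := by
        intro w hw
        rcases Finset.mem_insert.1 (Finset.mem_coe.1 hw) with rfl | hw
        · exact h2 (Finset.mem_coe.2 hx'.1)
        · exact h1 (Finset.mem_coe.2 (Finset.mem_of_mem_erase hw))
      have hX''c : X''.card = n := by
        rw [Finset.card_insert_of_notMem (fun h => hx'.2 (Finset.mem_of_mem_erase h)),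
          Finset.card_erase_add_one hz'.1, h3]
      have e1 : c X = c X'' := by
        refine h (insert x X) ?_ ?_ X X'' (Finset.subset_insert _ _) ?_ h3 hX''c
        · intro w hw
          rcases Finset.mem_insert.1 (Finset.mem_coe.1 hw) with rfl | hw
          · exact h2 (Finset.mem_coe.2 hx'.1)
          · exact h1 (Finset.mem_coe.2 hw)
        · rw [Finset.card_insert_of_notMem hx'.2, h3]
        · exact Finset.insert_subset_insert _ (Finset.erase_subset _ _)
      rw [e1]
      refine ih X'' X' hX''Y h2 hX''c h4 ?_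
      have hsd : X' \ X'' = (X' \ X).erase x := by
        ext w
        simp only [X'', Finset.mem_sdiff, Finset.mem_insert, Finset.mem_erase, not_or, not_and]
        constructor
        · rintro ⟨w1, w2, w3⟩
          refine ⟨w2, w1, fun w4 => w3 (fun e => ?_) w4⟩
          subst e
          exact hz'.2 w1
        · rintro ⟨w1, w2, w3⟩
          exact ⟨w2, w1, fun _ w5 => w3 w5⟩
      rw [hsd, Finset.card_erase_of_mem hx, h5]
      rfl
  intro X X' h1 h2 h3 h4
  exact key _ X X' h1 h2 h3 h4 rfl

end Pool.Agent.Helper227.SOC
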