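import Pool.Agent.Helper227.SOC.Tower

set_option autoImplicit false
open Filter

namespace Pool.Agent.Helper227.SOC

/-- `F'` end-extends `F`. -/
def Ext (F F' : Finset ℕ) : Prop := F ⊆ F' ∧ ∀ x ∈ F', x ∉ F → ∀ z ∈ F, z < x

theorem Ext.refl (F : Finset ℕ) : Ext F F := ⟨Finset.Subset.refl _, fun _ h h' => absurd h h'⟩

theorem Ext.trans {F F' F'' : Finset ℕ} (h : Ext F F') (h' : Ext F' F'') : Ext F F'' := by
  refine ⟨h.1.trans h'.1, fun x hx hxF z hz => ?_⟩
  by_cases hx' : x ∈ F'
  · exact h.2 x hx' hxF z hz
  · exact h'.2 x hx hx' z (h.1 hz)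

theorem Ext.insert {F : Finset ℕ} {y : ℕ} (h : ∀ z ∈ F, z < y) : Ext F (insert y F) := by
  refine ⟨Finset.subset_insert _ _, fun x hx hxF z hz => ?_⟩
  rcases Finset.mem_insert.1 hx with rfl | hx
  · exact h z hz
  · exact absurd hx hxF

theorem joint {κ : ℕ} (G : Filter ℕ) [G.NeBot] (hG : ∀ v : ℕ, ∀ᶠ y in G, v < y) (e : ℕ → Fin κ)
    (Gl : Fin κ → Finset ℕ → Prop) (Inv : (Fin κ → Finset ℕ) → Prop)
    (hInv : ∀ F, Inv F → ∀ᶠ y in G, Inv (Function.update F (e y) (insert y (F (e y)))))
    (F : Fin κ → Finset ℕ) (hF : Inv F) (hb : ∀ j, Bar G (Gl j) (F j)) :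
    ∃ F', (∀ j, Ext (F j) (F' j)) ∧ Inv F' ∧ ∃ j, Gl j (F' j) := by
  generalize hα : (fun j => rk G (Gl j) (F j)) = α
  induction α using WellFoundedLT.induction generalizing F with
  | _ α ih =>
    subst hα
    by_cases hex : ∃ j, Gl j (F j)
    · exact ⟨F, fun j => Ext.refl _, hF, hex⟩
    · push Not at hex
      have h1 : ∀ j, ∀ᶠ y in G, Bar G (Gl j) (insert y (F j)) ∧
          rk G (Gl j) (insert y (F j)) < rk G (Gl j) (F j) := fun j =>
        (hb j).cases.resolve_left (hex j)
      have h1' := Filter.eventually_all.2 h1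
      have h2 : ∀ j, ∀ᶠ y in G, ∀ z ∈ F j, z < y := by
        intro j
        rw [Filter.eventually_all_finset]
        intro z _
        exact hG z
      have h2' := Filter.eventually_all.2 h2
      obtain ⟨y, hy1, hy2, hy3⟩ := (h1'.and (h2'.and (hInv F hF))).exists
      obtain ⟨F', hF'1, hF'2, hF'3⟩ := ih (fun j => rk G (Gl j)
        (Function.update F (e y) (insert y (F (e y))) j)) (by
          rw [Pi.lt_def]
          refine ⟨fun j => ?_, e y, ?_⟩
          · by_cases hj : j = e y
            · subst hj
              simp only [Function.update_self]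
              exact (hy1 _).2.le
            · simp only [Function.update_of_ne hj]
              exact le_rfl
          · simp only [Function.update_self]
            exact (hy1 _).2) _ hy3 (by
          intro j
          by_cases hj : j = e y
          · subst hj
            simp only [Function.update_self]
            exact (hy1 _).1
          · simp only [Function.update_of_ne hj]
            exact hb j) rfl
      refine ⟨F', fun j => ?_, hF'2, hF'3⟩
      by_cases hj : j = e y
      · subst hj
        have := hF'1 (e y)
        rw [Function.update_self] at this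
        exact (Ext.insert (hy2 _)).trans this
      · have := hF'1 j
        rw [Function.update_of_ne hj] at this
        exact this

end Pool.Agent.Helper227.SOC
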