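import Mathlib

set_option autoImplicit false
open Filter

namespace Pool.Agent.Helper227.SOC

/-- a finite set of pairs is the graph of a partial function. -/
def Fn {X C : Type} (Ψ : Finset (X × C)) : Prop := ∀ a ∈ Ψ, ∀ b ∈ Ψ, a.1 = b.1 → a.2 = b.2

open Classical in
theorem generic {X Y C P : Type} [Nonempty C] [Countable C] (out : Y → ℕ → X) (BX : Set X)
    (BY : Set Y) (hBX : BX.Countable) (hBY : BY.Countable) (Q : Filter ℕ) [Q.IsCountablyGenerated]
    (h1 : ∀ β ∈ BY, ∀ᶠ y in Q, out β y ∈ BX)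
    (h2 : ∀ β ∈ BY, ∀ x ∈ BX, ∀ᶠ y in Q, out β y ≠ x)
    (h3 : ∀ β ∈ BY, ∀ β' ∈ BY, β ≠ β' → ∀ᶠ y in Q, out β y ≠ out β' y)
    (le : P → P → Prop) (hrefl : ∀ s, le s s) (htrans : ∀ s s' s'', le s'' s' → le s' s → le s'' s)
    (S : P → Set ℕ) (Gr : P → Finset (X × C)) (hS : ∀ s s', le s' s → S s' ⊆ S s)
    (hG : ∀ s s', le s' s → Gr s ⊆ Gr s') (hfn : ∀ s, Fn (Gr s)) (hB : ∀ s, ∀ a ∈ Gr s, a.1 ∈ BX)
    (hE : ∀ s, ∀ Ψ : Finset (X × C), (∀ a ∈ Ψ, a.1 ∈ BX) → Fn (Gr s ∪ Ψ) → ∃ s', le s' s ∧ Ψ ⊆ Gr s')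
    (hF : ∀ s, ∃ᶠ y in Q, y ∈ S s) (s0 : P) (Dn : ℕ → P → Prop)
    (hD : ∀ i s, ∃ s', le s' s ∧ Dn i s') :
    ∃ σ : ℕ → P, σ 0 = s0 ∧ (∀ t t', t ≤ t' → le (σ t') (σ t)) ∧ (∀ i, ∃ t, Dn i (σ t)) ∧
      ∃ c : X → C, (∀ x ∈ BX, ∃ t, (x, c x) ∈ Gr (σ t)) ∧
        ∀ Ψ : Finset (Y × C), (∀ a ∈ Ψ, a.1 ∈ BY) → Fn Ψ → ∀ A ∈ Q, ∀ u,
          ∃ y ∈ A, y ∈ S (σ u) ∧ ∀ a ∈ Ψ, c (out a.1 y) = a.2 := by
  have := hBX.to_subtype
  have := hBY.to_subtype
  obtain ⟨V, hV⟩ := Q.exists_antitone_basis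
  let ι := ℕ ⊕ (BX ⊕ (Finset (BY × C) × ℕ))
  let R : ι → P → P → Prop := fun i s s' =>
    match i with
    | Sum.inl i => Dn i s'
    | Sum.inr (Sum.inl x) => ∃ i, (x.1, i) ∈ Gr s'
    | Sum.inr (Sum.inr (Ψ, n)) => Fn Ψ → ∃ y ∈ V n, y ∈ S s ∧ ∀ a ∈ Ψ, (out a.1.1 y, a.2) ∈ Gr s'
  have hR : ∀ i s, ∃ s', le s' s ∧ R i s s' := by
    intro i s
    match i with
    | Sum.inl i => exact hD i s
    | Sum.inr (Sum.inl x) =>
      by_cases hx : ∃ i, (x.1, i) ∈ Gr s
      · exact ⟨s, hrefl s, hx⟩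
      · obtain ⟨i⟩ := ‹Nonempty C›
        obtain ⟨s', h, h'⟩ := hE s {(x.1, i)} (by
          intro a ha
          rw [Finset.mem_singleton] at ha
          subst ha
          exact x.2) (by
          intro a ha b hb hab
          rw [Finset.mem_union, Finset.mem_singleton] at ha hb
          rcases ha with ha | rfl <;> rcases hb with hb | rfl
          · exact hfn s a ha b hb hab
          · exfalso
            apply hx
            refine ⟨a.2, ?_⟩
            have : a = (x.1, a.2) := Prod.ext hab rfl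
            rw [← this]
            exact ha
          · exfalso
            apply hx
            refine ⟨b.2, ?_⟩
            have : b = (x.1, b.2) := Prod.ext hab.symm rfl
            rw [← this]
            exact hb
          · rfl)
        exact ⟨s', h, i, h' (Finset.mem_singleton_self _)⟩
    | Sum.inr (Sum.inr (Ψ, n)) =>
      by_cases hΨ : Fn Ψ
      · have e1 : ∀ᶠ y in Q, ∀ a ∈ Ψ, out a.1.1 y ∈ BX := by
          rw [Filter.eventually_all_finset]
          intro a _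
          exact h1 a.1.1 a.1.2
        have e2 : ∀ᶠ y in Q, ∀ a ∈ Ψ, ∀ x ∈ Gr s, out a.1.1 y ≠ x.1 := by
          rw [Filter.eventually_all_finset]
          intro a _
          rw [Filter.eventually_all_finset]
          intro x hx
          exact h2 a.1.1 a.1.2 x.1 (hB s x hx)
        have e3 : ∀ᶠ y in Q, ∀ a ∈ Ψ, ∀ b ∈ Ψ, a.1 ≠ b.1 → out a.1.1 y ≠ out b.1.1 y := by
          rw [Filter.eventually_all_finset]
          intro a _
          rw [Filter.eventually_all_finset]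
          intro b _
          by_cases hab : a.1 = b.1
          · exact Eventually.of_forall fun y h => absurd hab h
          · exact (h3 a.1.1 a.1.2 b.1.1 b.1.2 (fun h => hab (Subtype.ext h))).mono fun y hy _ => hy
        have e4 : ∀ᶠ y in Q, y ∈ V n := hV.1.mem_of_mem trivial
        obtain ⟨y, hy0, hy1, hy2, hy3, hy4⟩ := ((hF s).and_eventually (e1.and (e2.and (e3.and e4)))).exists
        obtain ⟨s', h, h'⟩ := hE s (Ψ.image fun a => (out a.1.1 y, a.2)) (by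
          intro a ha
          obtain ⟨b, hb, rfl⟩ := Finset.mem_image.1 ha
          exact hy1 b hb) (by
          intro a ha b hb hab
          rw [Finset.mem_union, Finset.mem_image] at ha hb
          rcases ha with ha | ⟨a, ha, rfl⟩ <;> rcases hb with hb | ⟨b, hb, rfl⟩
          · exact hfn s a ha b hb hab
          · exact absurd hab.symm (hy2 b hb a ha)
          · exact absurd hab (hy2 a ha b hb)
          · by_contra hc
            have : a.1 ≠ b.1 := fun h => hc (hΨ a ha b hb h)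
            exact hy3 a ha b hb this hab)
        exact ⟨s', h, fun _ => ⟨y, hy4, hy0, fun a ha => h' (Finset.mem_image.2 ⟨a, ha, rfl⟩)⟩⟩
      · exact ⟨s, hrefl s, fun h => absurd h hΨ⟩
  have : Nonempty ι := ⟨Sum.inl 0⟩
  obtain ⟨e, he⟩ := exists_surjective_nat ι
  choose nx hnx1 hnx2 using hR
  let σ : ℕ → P := fun t => Nat.rec s0 (fun t s => nx (e (Nat.unpair t).1) s) t
  have hσ : ∀ t, σ (t + 1) = nx (e (Nat.unpair t).1) (σ t) := fun t => rfl
  have hmono : ∀ t t', t ≤ t' → le (σ t') (σ t) := by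
    intro t t' htt
    induction t', htt using Nat.le_induction with
    | base => exact hrefl _
    | succ t' _ ih => exact htrans _ _ _ (by rw [hσ]; exact hnx1 _ _) ih
  have hreq : ∀ i u, ∃ t, u ≤ t ∧ R i (σ t) (σ (t + 1)) := by
    intro i u
    obtain ⟨j, rfl⟩ := he i
    refine ⟨Nat.pair j u, Nat.right_le_pair _ _, ?_⟩
    have := hnx2 (e j) (σ (Nat.pair j u))
    rw [hσ, Nat.unpair_pair]
    exact this
  refine ⟨σ, rfl, hmono, ?_, ?_⟩
  · intro i
    obtain ⟨t, _, ht⟩ := hreq (Sum.inl i) 0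
    exact ⟨t + 1, ht⟩
  · let c : X → C := fun x => if h : ∃ i t, (x, i) ∈ Gr (σ t) then h.choose else Classical.arbitrary C
    have hc : ∀ x i t, (x, i) ∈ Gr (σ t) → c x = i := by
      intro x i t ht
      have hex : ∃ i t, (x, i) ∈ Gr (σ t) := ⟨i, t, ht⟩
      have h4 : c x = hex.choose := dif_pos hex
      obtain ⟨t', ht'⟩ := hex.choose_spec
      rw [h4]
      have a1 := hG _ _ (hmono t (max t t') (le_max_left _ _)) ht
      have a2 := hG _ _ (hmono t' (max t t') (le_max_right _ _)) ht'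
      exact hfn _ _ a2 _ a1 rfl
    refine ⟨c, ?_, ?_⟩
    · intro x hx
      obtain ⟨t, _, i, ht⟩ := hreq (Sum.inr (Sum.inl ⟨x, hx⟩)) 0
      refine ⟨t + 1, ?_⟩
      rw [hc x i (t + 1) ht]
      exact ht
    · intro Ψ hΨ1 hΨ2 A hA u
      obtain ⟨n, _, hn⟩ := hV.1.mem_iff.1 hA
      let Ψ' : Finset (BY × C) := Ψ.attach.image fun a => (⟨a.1.1, hΨ1 a.1 a.2⟩, a.1.2)
      have hΨ' : Fn Ψ' := by
        intro a ha b hb hab
        obtain ⟨a', _, rfl⟩ := Finset.mem_image.1 ha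
        obtain ⟨b', _, rfl⟩ := Finset.mem_image.1 hb
        exact hΨ2 a'.1 a'.2 b'.1 b'.2 (congrArg Subtype.val hab)
      obtain ⟨t, htu, ht⟩ := hreq (Sum.inr (Sum.inr (Ψ', n))) u
      obtain ⟨y, hy1, hy2, hy3⟩ := ht hΨ'
      refine ⟨y, hn hy1, hS _ _ (hmono _ _ htu) hy2, fun a ha => ?_⟩
      exact hc _ _ (t + 1) (hy3 (⟨a.1, hΨ1 a ha⟩, a.2)
        (Finset.mem_image.2 ⟨⟨a, ha⟩, Finset.mem_attach _ _, rfl⟩))

end Pool.Agent.Helper227.SOC
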