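import Pool.Agent.Helper227.SOC.Sets

set_option autoImplicit false
open Filter

namespace Pool.Agent.Helper227.SOC

/-- the filter obtained by restricting to `y` with `f β y` for all `β ∈ B`. -/
def colF {Y : Type} (Q : Filter ℕ) (B : Set Y) (f : Y → ℕ → Prop) : Filter ℕ :=
  Q ⊓ ⨅ β ∈ B, 𝓟 {y | f β y}

theorem colF_le {Y : Type} (Q : Filter ℕ) (B : Set Y) (f : Y → ℕ → Prop) : colF Q B f ≤ Q :=
  inf_le_left

theorem colF_mem {Y : Type} (Q : Filter ℕ) (B : Set Y) (f : Y → ℕ → Prop) {β : Y} (hβ : β ∈ B) :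
    ∀ᶠ y in colF Q B f, f β y :=
  mem_inf_of_right (mem_iInf_of_mem β (mem_iInf_of_mem hβ (mem_principal_self _)))

theorem colF_neBot {Y : Type} (Q : Filter ℕ) (B : Set Y) (f : Y → ℕ → Prop)
    (h : ∀ Φ : Finset Y, (∀ β ∈ Φ, β ∈ B) → ∃ᶠ y in Q, ∀ β ∈ Φ, f β y) : (colF Q B f).NeBot := by
  classical
  rw [colF, neBot_iff]
  intro hbot
  rw [← empty_mem_iff_bot] at hbot
  obtain ⟨A, hA, A', hA', he⟩ := mem_inf_iff.1 hbot
  rw [iInf_subtype', mem_iInf_finite] at hA'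
  obtain ⟨t, ht⟩ := hA'
  have h1 := h (t.image Subtype.val) (by
    intro β hβ
    obtain ⟨b, _, rfl⟩ := Finset.mem_image.1 hβ
    exact b.2)
  obtain ⟨y, hy1, hy2⟩ := (h1.and_eventually hA).exists
  have hy3 : y ∈ A' := by
    have : (⋂ i ∈ t, {y | f i.1 y}) ⊆ A' := by
      have h2 : (⨅ i ∈ t, 𝓟 {y | f i.1 y}) = 𝓟 (⋂ i ∈ t, {y | f i.1 y}) := by
        rw [iInf_principal_finset]
      rw [h2] at ht
      exact mem_principal.1 ht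
    apply this
    rw [Set.mem_iInter₂]
    intro i hi
    exact hy1 i.1 (Finset.mem_image.2 ⟨i, hi, rfl⟩)
  have : y ∈ A ∩ A' := ⟨hy2, hy3⟩
  rw [← he] at this
  exact this

/-- the goal for one operator. -/
def Goal {C : Type} (U : Ultrafilter ℕ) (Γ : Finset ℕ → Set ℕ) (n : ℕ) (c0 : Finset ℕ → C) (col : C)
    (F : Finset ℕ) : Prop :=
  (∃ v, ¬ Pv U Γ v F) ∨ ∃ B : Finset ℕ, B.card = n ∧ (∀ x ∈ B, x ∈ Γ F) ∧ c0 B = col

theorem planII {C : Type} {U : Ultrafilter ℕ} {Γ : Finset ℕ → Set ℕ} {m0 n : ℕ}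
    {B : ∀ m, Set (T U m)} (hK : ∀ m, ∀ γ ∈ B m, KK U 0 n m γ) {G : Filter ℕ}
    (e1 : ∀ m, ∀ β ∈ B (m + 1), ∀ᶠ y in G, ev U β y ∈ B m)
    (e2 : ∀ m, ∀ γ ∈ B m, ∀ F, (∀ᶠ y in (U : Filter ℕ),
          Bar (U : Filter ℕ) (Qfo U Γ m γ) (insert y F) ∧
          rk (U : Filter ℕ) (Qfo U Γ m γ) (insert y F) < rk (U : Filter ℕ) (Qfo U Γ m γ) F) →
        ∀ᶠ y in G, Bar (U : Filter ℕ) (Qfo U Γ m γ) (insert y F) ∧
          rk (U : Filter ℕ) (Qfo U Γ m γ) (insert y F) < rk (U : Filter ℕ) (Qfo U Γ m γ) F)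
    (e3 : ∀ m, ∀ β ∈ B (m + 1), ∀ F, (∀ᶠ y in (U : Filter ℕ), fo U Γ m (ev U β y) (insert y F)) →
        ∀ᶠ y in G, fo U Γ m (ev U β y) (insert y F))
    {cs : ∀ m, T U m → C}
    (e4 : ∀ m < m0, ∀ β ∈ B (m + 1), ∀ᶠ y in G, cs m (ev U β y) = cs (m + 1) β)
    {col : C} : ∀ m ≤ m0, ∀ β ∈ B m, ∀ F, fo U Γ m β F → cs m β = col →
      Bar G (Goal U Γ n (cs 0) col) F := by
  intro m
  induction m with
  | zero =>
    intro _ β hβ F hfo hcol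
    rw [fo_eq] at hfo
    refine Bar.transfer (fun F' hF' => Bar.base ?_) (fun F' hF' => e2 0 β hβ F' hF') hfo
    exact Or.inr ⟨β, (hK 0 β hβ).2, hF', hcol⟩
  | succ m ih =>
    intro hm β hβ F hfo hcol
    rw [fo_eq] at hfo
    refine Bar.transfer (fun F' hF' => Bar.step ?_) (fun F' hF' => e2 (m + 1) β hβ F' hF') hfo
    filter_upwards [e3 m β hβ F' hF', e1 m β hβ, e4 m (by omega) β hβ] with y h1 h2 h3
    exact ih (by omega) _ h2 _ h1 (h3.trans hcol)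

end Pool.Agent.Helper227.SOC
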