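import Pool.Agent.Helper227.SOC.Game

set_option autoImplicit false
open Filter

namespace Pool.Agent.Helper227.SOC

/-- the predicate whose bar is `fo`. -/
def Qfo (U : Ultrafilter ℕ) (Γ : Finset ℕ → Set ℕ) : (m : ℕ) → T U m → Finset ℕ → Prop
  | 0, B => fun F' => ∀ x ∈ (show Finset ℕ from B), x ∈ Γ F'
  | m + 1, β => fun F' => ∀ᶠ y in (U : Filter ℕ), fo U Γ m (ev U β y) (insert y F')

theorem fo_eq {U : Ultrafilter ℕ} {Γ : Finset ℕ → Set ℕ} : ∀ {m : ℕ} {γ : T U m} {F : Finset ℕ},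
    fo U Γ m γ F = Bar (U : Filter ℕ) (Qfo U Γ m γ) F
  | 0, _, _ => rfl
  | _ + 1, _, _ => rfl

/-- a countably generated filter containing the relevant `U`-large sets. -/
theorem exists_Q0 (U : Ultrafilter ℕ) (S : Set (Set ℕ)) (hS : S.Countable) :
    ∃ Q0 : Filter ℕ, Q0.IsCountablyGenerated ∧ Q0.NeBot ∧ ∀ A ∈ S, A ∈ (U : Filter ℕ) → A ∈ Q0 := by
  have hc : {A | A ∈ S ∧ A ∈ (U : Filter ℕ)}.Countable := hS.mono fun A hA => hA.1
  have := hc.to_subtype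
  have hle : (U : Filter ℕ) ≤ ⨅ A : {A | A ∈ S ∧ A ∈ (U : Filter ℕ)}, 𝓟 A.1 :=
    le_iInf fun A => le_principal_iff.2 A.2.2
  refine ⟨⨅ A : {A | A ∈ S ∧ A ∈ (U : Filter ℕ)}, 𝓟 A.1, inferInstance, neBot_of_le hle, ?_⟩
  intro A h1 h2
  exact mem_iInf_of_mem (⟨A, h1, h2⟩ : {A | A ∈ S ∧ A ∈ (U : Filter ℕ)}) (mem_principal_self _)

/-- the basic types. -/
theorem exists_B {ι : Type} [Countable ι] (U : Ultrafilter ℕ) (Γ : ι → Finset ℕ → Set ℕ) (n : ℕ) :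
    ∃ B : ∀ m, Set (T U m), (∀ m, (B m).Countable) ∧ (∀ m, ∀ γ ∈ B m, KK U 0 n m γ) ∧
      (∀ m, ∀ β ∈ B (m + 1), ∀ y, KK U 0 n m (ev U β y) → ev U β y ∈ B m) ∧
      ∀ m i F, Nn U (Γ i) m (KK U 0 n m) F → ∃ β ∈ B (m + 1),
        ∀ᶠ y in (U : Filter ℕ), fo U (Γ i) m (ev U β y) (insert y F) := by
  classical
  let Start : ∀ m, Set (T U m) := fun m => match m with
    | 0 => ∅
    | m + 1 => ⋃ p : ι × Finset ℕ, {β | ∃ h : Nn U (Γ p.1) m (KK U 0 n m) p.2, β = mk U h.choose}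
  let D : ℕ → ∀ m, Set (T U m) := fun l => Nat.rec Start
    (fun _ D m => {γ | KK U 0 n m γ ∧ ∃ β ∈ D (m + 1), ∃ y, γ = ev U β y}) l
  have hD : ∀ l m, D (l + 1) m = {γ | KK U 0 n m γ ∧ ∃ β ∈ D l (m + 1), ∃ y, γ = ev U β y} :=
    fun _ _ => rfl
  have hD0 : ∀ m, D 0 m = Start m := fun _ => rfl
  have hst : ∀ {m} {i : ι} {F : Finset ℕ} (h : Nn U (Γ i) m (KK U 0 n m) F),
      KK U 0 n (m + 1) (mk U h.choose) ∧
      ∀ᶠ y in (U : Filter ℕ), fo U (Γ i) m (ev U (mk U h.choose) y) (insert y F) := by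
    intro m i F h
    obtain ⟨h1, h2⟩ := h.choose_spec
    refine ⟨⟨fun γ => ?_, ?_⟩, ?_⟩
    · filter_upwards [h1 γ, ev_mk h.choose] with y h3 h4
      rw [h4]
      exact h3
    · filter_upwards [h2, ev_mk h.choose] with y h3 h4
      rw [h4]
      exact h3.1
    · filter_upwards [h2, ev_mk h.choose] with y h3 h4
      rw [h4]
      exact h3.2
  refine ⟨fun m => ⋃ l, D l m, fun m => Set.countable_iUnion fun l => ?_, ?_, ?_, ?_⟩
  · induction l generalizing m with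
    | zero =>
      rw [hD0]
      match m with
      | 0 => exact Set.countable_empty
      | m + 1 =>
        refine Set.countable_iUnion fun p => ?_
        by_cases h : Nn U (Γ p.1) m (KK U 0 n m) p.2
        · refine (Set.countable_singleton (mk U h.choose)).mono ?_
          rintro β ⟨_, rfl⟩
          rfl
        · refine Set.countable_empty.mono ?_
          rintro β ⟨h', _⟩
          exact h h'
    | succ l ih =>
      rw [hD]
      have := (ih (m + 1)).biUnion (t := fun β _ => Set.range (ev U β)) fun β _ => Set.countable_range _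
      refine this.mono ?_
      rintro γ ⟨_, β, hβ, y, rfl⟩
      exact Set.mem_biUnion hβ (Set.mem_range_self y)
  · intro m γ hγ
    obtain ⟨l, hl⟩ := Set.mem_iUnion.1 hγ
    cases l with
    | zero =>
      rw [hD0] at hl
      cases m with
      | zero => exact absurd hl (Set.notMem_empty _)
      | succ m =>
        obtain ⟨p, h, hp⟩ := Set.mem_iUnion.1 hl
        rw [hp]
        exact (hst h).1
    | succ l =>
      rw [hD] at hl
      exact hl.1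
  · intro m β hβ y hy
    obtain ⟨l, hl⟩ := Set.mem_iUnion.1 hβ
    refine Set.mem_iUnion.2 ⟨l + 1, ?_⟩
    rw [hD]
    exact ⟨hy, β, hl, y, rfl⟩
  · intro m i F h
    refine ⟨mk U h.choose, Set.mem_iUnion.2 ⟨0, ?_⟩, (hst h).2⟩
    rw [hD0]
    exact Set.mem_iUnion.2 ⟨(i, F), h, rfl⟩

/-- all relevant sets. -/
theorem exists_Q {ι : Type} [Countable ι] (U : Ultrafilter ℕ) (Γ : ι → Finset ℕ → Set ℕ) (m0 : ℕ)
    (B : ∀ m, Set (T U m)) (hB : ∀ m, (B m).Countable) :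
    ∃ Q0 : Filter ℕ, Q0.IsCountablyGenerated ∧ Q0.NeBot ∧
      (∀ i F, (∀ᶠ y in (U : Filter ℕ), Bar (U : Filter ℕ) (Qs U (Γ i) m0) (insert y F) ∧
          rk (U : Filter ℕ) (Qs U (Γ i) m0) (insert y F) < rk (U : Filter ℕ) (Qs U (Γ i) m0) F) →
        ∀ᶠ y in Q0, Bar (U : Filter ℕ) (Qs U (Γ i) m0) (insert y F) ∧
          rk (U : Filter ℕ) (Qs U (Γ i) m0) (insert y F) < rk (U : Filter ℕ) (Qs U (Γ i) m0) F) ∧
      (∀ i m, ∀ γ ∈ B m, ∀ F, (∀ᶠ y in (U : Filter ℕ),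
          Bar (U : Filter ℕ) (Qfo U (Γ i) m γ) (insert y F) ∧
          rk (U : Filter ℕ) (Qfo U (Γ i) m γ) (insert y F) < rk (U : Filter ℕ) (Qfo U (Γ i) m γ) F) →
        ∀ᶠ y in Q0, Bar (U : Filter ℕ) (Qfo U (Γ i) m γ) (insert y F) ∧
          rk (U : Filter ℕ) (Qfo U (Γ i) m γ) (insert y F) < rk (U : Filter ℕ) (Qfo U (Γ i) m γ) F) ∧
      (∀ i m, ∀ β ∈ B (m + 1), ∀ F, (∀ᶠ y in (U : Filter ℕ), fo U (Γ i) m (ev U β y) (insert y F)) →
        ∀ᶠ y in Q0, fo U (Γ i) m (ev U β y) (insert y F)) ∧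
      (∀ i v F, (∀ᶠ y in (U : Filter ℕ), ¬ Pv U (Γ i) v (insert y F)) →
        ∀ᶠ y in Q0, ¬ Pv U (Γ i) v (insert y F)) ∧
      (∀ v : ℕ, (∀ᶠ y in (U : Filter ℕ), v < y) → ∀ᶠ y in Q0, v < y) ∧
      (∀ m, ∀ β ∈ B (m + 1), (∀ᶠ y in (U : Filter ℕ), ev U β y ∈ B m) → ∀ᶠ y in Q0, ev U β y ∈ B m) ∧
      (∀ m, ∀ β ∈ B (m + 1), ∀ x ∈ B m, (∀ᶠ y in (U : Filter ℕ), ev U β y ≠ x) →
        ∀ᶠ y in Q0, ev U β y ≠ x) ∧
      (∀ m, ∀ β ∈ B (m + 1), ∀ β' ∈ B (m + 1), (∀ᶠ y in (U : Filter ℕ), ev U β y ≠ ev U β' y) →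
        ∀ᶠ y in Q0, ev U β y ≠ ev U β' y) := by
  have hc : ∀ m, Countable (B m) := fun m => (hB m).to_subtype
  let s1 : ι × Finset ℕ → Set ℕ := fun p => {y | Bar (U : Filter ℕ) (Qs U (Γ p.1) m0) (insert y p.2) ∧
    rk (U : Filter ℕ) (Qs U (Γ p.1) m0) (insert y p.2) < rk (U : Filter ℕ) (Qs U (Γ p.1) m0) p.2}
  let s2 : ∀ m : ℕ, ι × B m × Finset ℕ → Set ℕ := fun m p =>
    {y | Bar (U : Filter ℕ) (Qfo U (Γ p.1) m p.2.1) (insert y p.2.2) ∧
    rk (U : Filter ℕ) (Qfo U (Γ p.1) m p.2.1) (insert y p.2.2) <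
      rk (U : Filter ℕ) (Qfo U (Γ p.1) m p.2.1) p.2.2}
  let s3 : ∀ m : ℕ, ι × B (m + 1) × Finset ℕ → Set ℕ := fun m p =>
    {y | fo U (Γ p.1) m (ev U p.2.1.1 y) (insert y p.2.2)}
  let s4 : ι × ℕ × Finset ℕ → Set ℕ := fun p => {y | ¬ Pv U (Γ p.1) p.2.1 (insert y p.2.2)}
  let s5 : ℕ → Set ℕ := fun v => {y | v < y}
  let s6 : ∀ m : ℕ, B (m + 1) → Set ℕ := fun m β => {y | ev U β.1 y ∈ B m}
  let s7 : ∀ m : ℕ, B (m + 1) × B m → Set ℕ := fun m p => {y | ev U p.1.1 y ≠ p.2.1}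
  let s8 : ∀ m : ℕ, B (m + 1) × B (m + 1) → Set ℕ := fun m p => {y | ev U p.1.1 y ≠ ev U p.2.1 y}
  let S : Set (Set ℕ) := Set.range s1 ∪ (⋃ m, Set.range (s2 m)) ∪ (⋃ m, Set.range (s3 m)) ∪
    Set.range s4 ∪ Set.range s5 ∪ (⋃ m, Set.range (s6 m)) ∪ (⋃ m, Set.range (s7 m)) ∪
    (⋃ m, Set.range (s8 m))
  have hS : S.Countable := by
    refine Set.Countable.union (Set.Countable.union (Set.Countable.union (Set.Countable.union
      (Set.Countable.union (Set.Countable.union (Set.Countable.union ?_ ?_) ?_) ?_) ?_) ?_) ?_) ?_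
    · exact Set.countable_range _
    · exact Set.countable_iUnion fun m => Set.countable_range _
    · exact Set.countable_iUnion fun m => Set.countable_range _
    · exact Set.countable_range _
    · exact Set.countable_range _
    · exact Set.countable_iUnion fun m => Set.countable_range _
    · exact Set.countable_iUnion fun m => Set.countable_range _
    · exact Set.countable_iUnion fun m => Set.countable_range _
  obtain ⟨Q0, h1, h2, h3⟩ := exists_Q0 U S hS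
  refine ⟨Q0, h1, h2, ?_, ?_, ?_, ?_, ?_, ?_, ?_, ?_⟩
  · intro i F h
    exact h3 (s1 (i, F)) (Or.inl (Or.inl (Or.inl (Or.inl (Or.inl (Or.inl (Or.inl
      (Set.mem_range_self _)))))))) h
  · intro i m γ hγ F h
    exact h3 (s2 m (i, ⟨γ, hγ⟩, F)) (Or.inl (Or.inl (Or.inl (Or.inl (Or.inl (Or.inl (Or.inr
      (Set.mem_iUnion.2 ⟨m, Set.mem_range_self _⟩)))))))) h
  · intro i m β hβ F h
    exact h3 (s3 m (i, ⟨β, hβ⟩, F)) (Or.inl (Or.inl (Or.inl (Or.inl (Or.inl (Or.inr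
      (Set.mem_iUnion.2 ⟨m, Set.mem_range_self _⟩))))))) h
  · intro i v F h
    exact h3 (s4 (i, v, F)) (Or.inl (Or.inl (Or.inl (Or.inl (Or.inr (Set.mem_range_self _)))))) h
  · intro v h
    exact h3 (s5 v) (Or.inl (Or.inl (Or.inl (Or.inr (Set.mem_range_self _))))) h
  · intro m β hβ h
    exact h3 (s6 m ⟨β, hβ⟩) (Or.inl (Or.inl (Or.inr (Set.mem_iUnion.2 ⟨m, Set.mem_range_self _⟩)))) h
  · intro m β hβ x hx h
    exact h3 (s7 m (⟨β, hβ⟩, ⟨x, hx⟩)) (Or.inl (Or.inr (Set.mem_iUnion.2 ⟨m, Set.mem_range_self _⟩))) h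
  · intro m β hβ β' hβ' h
    exact h3 (s8 m (⟨β, hβ⟩, ⟨β', hβ'⟩)) (Or.inr (Set.mem_iUnion.2 ⟨m, Set.mem_range_self _⟩)) h

end Pool.Agent.Helper227.SOC
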