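import Pool.Agent.Helper227.SOC.Gen

set_option autoImplicit false
open Filter

namespace Pool.Agent.Helper227.SOC

/-- all finite patterns occur frequently. -/
def Hyp {X Y C : Type} (out : Y → ℕ → X) (BY : Set Y) (Q : Filter ℕ) (c : X → C) : Prop :=
  ∀ Ψ : Finset (Y × C), (∀ a ∈ Ψ, a.1 ∈ BY) → Fn Ψ → ∃ᶠ y in Q, ∀ a ∈ Ψ, c (out a.1 y) = a.2

open Classical in
theorem gen0 {X Y C : Type} [Nonempty C] [Countable C] (out : Y → ℕ → X) (BX : Set X)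
    (BY : Set Y) (hBX : BX.Countable) (hBY : BY.Countable) (Q : Filter ℕ) [Q.IsCountablyGenerated]
    [Q.NeBot]
    (h1 : ∀ β ∈ BY, ∀ᶠ y in Q, out β y ∈ BX)
    (h2 : ∀ β ∈ BY, ∀ x ∈ BX, ∀ᶠ y in Q, out β y ≠ x)
    (h3 : ∀ β ∈ BY, ∀ β' ∈ BY, β ≠ β' → ∀ᶠ y in Q, out β y ≠ out β' y) :
    ∃ c : X → C, Hyp out BY Q c := by
  let P := {G : Finset (X × C) // Fn G ∧ ∀ a ∈ G, a.1 ∈ BX}
  obtain ⟨σ, _, _, _, c, _, hc⟩ := generic (P := P) (C := C) out BX BY hBX hBY Q h1 h2 h3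
    (fun s' s => s.1 ⊆ s'.1) (fun s => Finset.Subset.refl _)
    (fun s s' s'' h h' => Finset.Subset.trans h' h) (fun _ => Set.univ) (fun s => s.1)
    (fun _ _ _ => Set.Subset.refl _) (fun _ _ h => h) (fun s => s.2.1) (fun s => s.2.2)
    (by
      intro s Ψ hΨ hfn
      refine ⟨⟨s.1 ∪ Ψ, hfn, fun a ha => ?_⟩, Finset.subset_union_left, Finset.subset_union_right⟩
      rcases Finset.mem_union.1 ha with ha | ha
      · exact s.2.2 a ha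
      · exact hΨ a ha)
    (fun s => (Eventually.of_forall fun y => trivial).frequently)
    ⟨∅, fun a ha => absurd ha (Finset.notMem_empty a), fun a ha => absurd ha (Finset.notMem_empty a)⟩
    (fun _ _ => True) (fun i s => ⟨s, Finset.Subset.refl _, trivial⟩)
  refine ⟨c, fun Ψ hΨ hfn => ?_⟩
  rw [Filter.frequently_iff]
  intro A hA
  obtain ⟨y, hy1, _, hy2⟩ := hc Ψ hΨ hfn A hA 0
  exact ⟨y, hy1, hy2⟩

open Classical in
theorem step {X Y Z C : Type} [Nonempty C] [Countable C] {k : ℕ} (out1 : Y → ℕ → X)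
    (out2 : Z → ℕ → Y) (BY : Set Y) (BZ : Set Z) (hBY : BY.Countable) (hBZ : BZ.Countable)
    (Q : Filter ℕ) [Q.IsCountablyGenerated]
    (h1 : ∀ β ∈ BZ, ∀ᶠ y in Q, out2 β y ∈ BY)
    (h2 : ∀ β ∈ BZ, ∀ x ∈ BY, ∀ᶠ y in Q, out2 β y ≠ x)
    (h3 : ∀ β ∈ BZ, ∀ β' ∈ BZ, β ≠ β' → ∀ᶠ y in Q, out2 β y ≠ out2 β' y)
    (c : X → C) (hc : Hyp out1 BY Q c) (f : ℕ → ℕ → Fin k) :
    ∃ Q' : Filter ℕ, Q' ≤ Q ∧ Q'.IsCountablyGenerated ∧ ∃ c' : Y → C, ∃ g : ℕ → Fin k,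
      (∀ β ∈ BY, ∀ᶠ y in Q', c (out1 β y) = c' β) ∧ (∀ i, ∀ᶠ y in Q', f i y = g i) ∧
      Hyp out2 BZ Q' c' := by
  let Pr : Set ℕ × Finset (Y × C) → Prop := fun s => Fn s.2 ∧ (∀ a ∈ s.2, a.1 ∈ BY) ∧
    (∀ y ∈ s.1, ∀ a ∈ s.2, c (out1 a.1 y) = a.2) ∧
    ∀ Ψ : Finset (Y × C), (∀ a ∈ Ψ, a.1 ∈ BY) → Fn (s.2 ∪ Ψ) →
      ∃ᶠ y in Q, y ∈ s.1 ∧ ∀ a ∈ Ψ, c (out1 a.1 y) = a.2
  let P := {s : Set ℕ × Finset (Y × C) // Pr s}
  let le : P → P → Prop := fun s' s => s'.1.1 ⊆ s.1.1 ∧ s.1.2 ⊆ s'.1.2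
  have hext : ∀ (s : P) (Ψ : Finset (Y × C)), (∀ a ∈ Ψ, a.1 ∈ BY) → Fn (s.1.2 ∪ Ψ) →
      Pr (s.1.1 ∩ {y | ∀ a ∈ Ψ, c (out1 a.1 y) = a.2}, s.1.2 ∪ Ψ) := by
    intro s Ψ hΨ hfn
    refine ⟨hfn, fun a ha => ?_, fun y hy a ha => ?_, fun Ψ' hΨ' hfn' => ?_⟩
    · rcases Finset.mem_union.1 ha with ha | ha
      · exact s.2.2.1 a ha
      · exact hΨ a ha
    · rcases Finset.mem_union.1 ha with ha | ha
      · exact s.2.2.2.1 y hy.1 a ha
      · exact hy.2 a ha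
    · have := s.2.2.2.2 (Ψ ∪ Ψ') (fun a ha => (Finset.mem_union.1 ha).elim (hΨ a) (hΨ' a)) (by
        rw [← Finset.union_assoc]
        exact hfn')
      refine this.mono fun y hy => ⟨⟨hy.1, fun a ha => hy.2 a (Finset.mem_union_left _ ha)⟩,
        fun a ha => hy.2 a (Finset.mem_union_right _ ha)⟩
  have hle : ∀ (s : P) (Ψ : Finset (Y × C)) (h : (∀ a ∈ Ψ, a.1 ∈ BY)) (h' : Fn (s.1.2 ∪ Ψ)),
      le ⟨_, hext s Ψ h h'⟩ s := fun s Ψ h h' => ⟨Set.inter_subset_left, Finset.subset_union_left⟩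
  have hfreq : ∀ s : P, ∃ᶠ y in Q, y ∈ s.1.1 := by
    intro s
    refine (s.2.2.2.2 ∅ (fun a ha => absurd ha (Finset.notMem_empty a)) ?_).mono fun y hy => hy.1
    rw [Finset.union_empty]
    exact s.2.1
  -- deciding
  have hdec : ∀ (h : ℕ → Fin k) (s : P), ∃ s' : P, le s' s ∧ ∃ j, ∀ y ∈ s'.1.1, h y = j := by
    intro h s
    have key : ∀ J : Finset (Fin k), (∃ s' : P, le s' s ∧ ∃ j, ∀ y ∈ s'.1.1, h y = j) ∨
        (∃ s' : P, le s' s ∧ ∀ᶠ y in Q, y ∈ s'.1.1 → h y ∉ J) := by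
      intro J
      induction J using Finset.induction_on with
      | empty =>
        exact Or.inr ⟨s, ⟨Set.Subset.refl _, Finset.Subset.refl _⟩,
          Eventually.of_forall fun y _ => Finset.notMem_empty _⟩
      | insert j J _ ih =>
        rcases ih with ih | ⟨s', hs', hJ⟩
        · exact Or.inl ih
        · by_cases hP : Pr (s'.1.1 ∩ {y | h y = j}, s'.1.2)
          · refine Or.inl ⟨⟨_, hP⟩, ⟨fun y hy => hs'.1 hy.1, hs'.2⟩, j, fun y hy => hy.2⟩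
          · right
            have : ∃ Ψ : Finset (Y × C), (∀ a ∈ Ψ, a.1 ∈ BY) ∧ Fn (s'.1.2 ∪ Ψ) ∧
                ¬ ∃ᶠ y in Q, y ∈ s'.1.1 ∩ {y | h y = j} ∧ ∀ a ∈ Ψ, c (out1 a.1 y) = a.2 := by
              by_contra hcon
              push Not at hcon
              exact hP ⟨s'.2.1, s'.2.2.1, fun y hy => s'.2.2.2.1 y hy.1, fun Ψ hΨ hfn => hcon Ψ hΨ hfn⟩
            obtain ⟨Ψ, hΨ, hfn, hnf⟩ := this
            refine ⟨⟨_, hext s' Ψ hΨ hfn⟩, ⟨fun y hy => hs'.1 hy.1,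
              hs'.2.trans Finset.subset_union_left⟩, ?_⟩
            rw [Filter.not_frequently] at hnf
            filter_upwards [hJ, hnf] with y hy1 hy2 hy3 hy4
            rcases Finset.mem_insert.1 hy4 with h5 | h5
            · exact hy2 ⟨⟨hy3.1, h5⟩, hy3.2⟩
            · exact hy1 hy3.1 h5
    rcases key Finset.univ with h' | ⟨s', _, hs'⟩
    · exact h'
    · exfalso
      obtain ⟨y, hy1, hy2⟩ := ((hfreq s').and_eventually hs').exists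
      exact hy2 hy1 (Finset.mem_univ _)
  obtain ⟨σ, _, hmono, hDn, c', hc'1, hc'2⟩ := generic (P := P) (C := C) out2 BY BZ hBY hBZ Q h1 h2 h3
    le (fun s => ⟨Set.Subset.refl _, Finset.Subset.refl _⟩)
    (fun s s' s'' h h' => ⟨h.1.trans h'.1, h'.2.trans h.2⟩)
    (fun s => s.1.1) (fun s => s.1.2)
    (fun _ _ h => h.1) (fun _ _ h => h.2) (fun s => s.2.1) (fun s => s.2.2.1)
    (fun s Ψ hΨ hfn => ⟨⟨_, hext s Ψ hΨ hfn⟩, hle s Ψ hΨ hfn, Finset.subset_union_right⟩)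
    hfreq
    ⟨(Set.univ, ∅), fun a ha => absurd ha (Finset.notMem_empty a),
      fun a ha => absurd ha (Finset.notMem_empty a), fun y _ a ha => absurd ha (Finset.notMem_empty a),
      fun Ψ hΨ hfn => (hc Ψ hΨ (by rw [Finset.empty_union] at hfn; exact hfn)).mono
        fun y hy => ⟨trivial, hy⟩⟩
    (fun i s => ∃ j, ∀ y ∈ s.1.1, f i y = j) (fun i s => hdec (f i) s)
  choose t ht using hDn
  choose g hg using ht
  refine ⟨Q ⊓ ⨅ t, 𝓟 (σ t).1.1, inf_le_left, inferInstance, c', g, ?_, ?_, ?_⟩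
  · intro β hβ
    obtain ⟨t, ht⟩ := hc'1 β hβ
    have : (σ t).1.1 ∈ (Q ⊓ ⨅ t, 𝓟 (σ t).1.1) :=
      mem_inf_of_right (mem_iInf_of_mem t (mem_principal_self _))
    filter_upwards [this] with y hy
    exact (σ t).2.2.2.1 y hy _ ht
  · intro i
    have : (σ (t i)).1.1 ∈ (Q ⊓ ⨅ t, 𝓟 (σ t).1.1) :=
      mem_inf_of_right (mem_iInf_of_mem (t i) (mem_principal_self _))
    filter_upwards [this] with y hy
    exact hg i y hy
  · intro Ψ hΨ hfn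
    rw [Filter.frequently_iff]
    intro W hW
    obtain ⟨A, hA, A', hA', rfl⟩ := mem_inf_iff.1 hW
    have hanti : Antitone fun t => (σ t).1.1 := fun t t' h => (hmono t t' h).1
    obtain ⟨u, hu⟩ : ∃ u, (σ u).1.1 ⊆ A' := by
      rw [mem_iInf_of_directed] at hA'
      · obtain ⟨u, hu⟩ := hA'
        exact ⟨u, mem_principal.1 hu⟩
      · intro a b
        exact ⟨max a b, principal_mono.2 (hanti (le_max_left _ _)), principal_mono.2 (hanti (le_max_right _ _))⟩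
    obtain ⟨y, hy1, hy2, hy3⟩ := hc'2 Ψ hΨ hfn A hA u
    exact ⟨y, ⟨hy1, hu hy2⟩, hy3⟩

end Pool.Agent.Helper227.SOC
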