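import Pool.Agent.Helper227.SOC.Step
import Pool.Agent.Helper227.SOC.Anal

set_option autoImplicit false
open Filter

namespace Pool.Agent.Helper227.SOC

theorem tower {k : ℕ} {C : Type} [Nonempty C] [Countable C] (U : Ultrafilter ℕ)
    (B : ∀ m, Set (T U m)) (hB : ∀ m, (B m).Countable) (Q0 : Filter ℕ) [Q0.IsCountablyGenerated]
    [Q0.NeBot]
    (h1 : ∀ m, ∀ β ∈ B (m + 1), ∀ᶠ y in Q0, ev U β y ∈ B m)
    (h2 : ∀ m, ∀ β ∈ B (m + 1), ∀ x ∈ B m, ∀ᶠ y in Q0, ev U β y ≠ x)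
    (h3 : ∀ m, ∀ β ∈ B (m + 1), ∀ β' ∈ B (m + 1), β ≠ β' → ∀ᶠ y in Q0, ev U β y ≠ ev U β' y) :
    ∃ c0 : Finset ℕ → C, ∀ d : Finset ℕ → Fin k, ∀ N : ℕ,
      ∃ (Q : Filter ℕ) (cs : ∀ m, T U m → C) (ds : ℕ → Finset ℕ → Fin k),
        cs 0 = c0 ∧ ds 0 = d ∧ Q ≤ Q0 ∧ Q.IsCountablyGenerated ∧
        (∀ m < N, ∀ β ∈ B (m + 1), ∀ᶠ y in Q, cs m (ev U β y) = cs (m + 1) β) ∧
        (∀ m < N, ∀ X, ∀ᶠ y in Q, ds m (insert y X) = ds (m + 1) X) ∧
        Hyp (ev U) (B (N + 1)) Q (cs N) := by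
  obtain ⟨c0, hc0⟩ := gen0 (C := C) (ev U) (B 0) (B 1) (hB 0) (hB 1) Q0 (h1 0) (h2 0) (h3 0)
  refine ⟨c0, fun d N => ?_⟩
  obtain ⟨en, hen⟩ := exists_surjective_nat (Finset ℕ)
  choose idx hidx using hen
  induction N with
  | zero =>
    refine ⟨Q0, fun m => match m with
      | 0 => c0
      | m + 1 => fun _ => Classical.arbitrary C, fun _ => d, rfl, rfl, le_rfl, inferInstance, ?_, ?_, hc0⟩
    · intro m hm
      omega
    · intro m hm
      omega
  | succ N ih =>
    obtain ⟨Q, cs, ds, e1, e2, hQ, hcg, hcs, hds, hhyp⟩ := ih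
    obtain ⟨Q', hQ', hcg', c', g, p1, p2, p3⟩ := step (ev U) (ev U) (B (N + 1)) (B (N + 1 + 1))
      (hB _) (hB _) Q (fun β hβ => hQ (h1 _ β hβ)) (fun β hβ x hx => hQ (h2 _ β hβ x hx))
      (fun β hβ β' hβ' hne => hQ (h3 _ β hβ β' hβ' hne)) (cs N) hhyp
      (fun i y => ds N (insert y (en i)))
    refine ⟨Q', Function.update cs (N + 1) c',
      Function.update ds (N + 1) (fun X => g (idx X)), ?_, ?_, hQ'.trans hQ, hcg', ?_, ?_, ?_⟩
    · rw [Function.update_of_ne (by omega)]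
      exact e1
    · rw [Function.update_of_ne (by omega)]
      exact e2
    · intro m hm β hβ
      rcases Nat.lt_succ_iff_lt_or_eq.1 hm with hm' | rfl
      · rw [Function.update_of_ne (by omega), Function.update_of_ne (by omega)]
        exact hQ' (hcs m hm' β hβ)
      · rw [Function.update_of_ne (by omega), Function.update_self]
        exact p1 β hβ
    · intro m hm X
      rcases Nat.lt_succ_iff_lt_or_eq.1 hm with hm' | rfl
      · rw [Function.update_of_ne (by omega), Function.update_of_ne (by omega)]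
        exact hQ' (hds m hm' X)
      · rw [Function.update_of_ne (by omega), Function.update_self]
        filter_upwards [p2 (idx X)] with y hy
        rw [hidx] at hy
        exact hy
    · rw [Function.update_self]
      exact p3

end Pool.Agent.Helper227.SOC
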