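import Pool.Agent.Helper227.SOC.Bar

set_option autoImplicit false
open Filter

namespace Pool.Agent.Helper227.SOC

/-- types of level `m`: iterated germs at `U` of functions into finite sets. -/
def T (U : Ultrafilter ℕ) : ℕ → Type
  | 0 => Finset ℕ
  | m + 1 => (U : Filter ℕ).Germ (T U m)

variable (U : Ultrafilter ℕ)

/-- a germ from a representative. -/
def mk {m : ℕ} (f : ℕ → T U m) : T U (m + 1) := (Filter.Germ.ofFun f : (U : Filter ℕ).Germ (T U m))

/-- a chosen representative. -/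
noncomputable def ev {m : ℕ} (β : T U (m + 1)) : ℕ → T U m :=
  Quotient.out (s := germSetoid (U : Filter ℕ) (T U m)) β

variable {U}

theorem mk_eq {m : ℕ} {f g : ℕ → T U m} : mk U f = mk U g ↔ ∀ᶠ y in (U : Filter ℕ), f y = g y :=
  Filter.Germ.coe_eq

theorem mk_ev {m : ℕ} (β : T U (m + 1)) : mk U (ev U β) = β :=
  Quotient.out_eq (s := germSetoid (U : Filter ℕ) (T U m)) β

theorem ev_mk {m : ℕ} (f : ℕ → T U m) : ∀ᶠ y in (U : Filter ℕ), ev U (mk U f) y = f y :=
  mk_eq.1 (mk_ev (mk U f))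

theorem T_ext {m : ℕ} {β β' : T U (m + 1)} (h : ∀ᶠ y in (U : Filter ℕ), ev U β y = ev U β' y) :
    β = β' := by
  rw [← mk_ev β, ← mk_ev β']
  exact mk_eq.2 h

theorem T_ne {m : ℕ} {β β' : T U (m + 1)} (h : β ≠ β') :
    ∀ᶠ y in (U : Filter ℕ), ev U β y ≠ ev U β' y := by
  by_contra hc
  apply h
  apply T_ext
  by_contra hc2
  exact hc (Ultrafilter.eventually_not.2 hc2)

variable (U)

/-- size `r`, all elements `> v`, hereditarily not constant. -/
def KK (v r : ℕ) : (m : ℕ) → T U m → Prop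
  | 0, B => (∀ x ∈ (show Finset ℕ from B), v < x) ∧ (show Finset ℕ from B).card = r
  | m + 1, β => (∀ γ : T U m, ∀ᶠ y in (U : Filter ℕ), ev U β y ≠ γ) ∧
      ∀ᶠ y in (U : Filter ℕ), KK v r m (ev U β y)

/-- adding an element. -/
noncomputable def ins (b : ℕ) : (m : ℕ) → T U m → T U m
  | 0, B => (insert b (show Finset ℕ from B) : Finset ℕ)
  | m + 1, β => mk U fun y => ins b m (ev U β y)

/-- `γ` is forced at `F`. -/
def fo (Γ : Finset ℕ → Set ℕ) : (m : ℕ) → T U m → Finset ℕ → Prop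
  | 0, B, F => Bar (U : Filter ℕ) (fun F' => ∀ x ∈ (show Finset ℕ from B), x ∈ Γ F') F
  | m + 1, β, F => Bar (U : Filter ℕ)
      (fun F' => ∀ᶠ y in (U : Filter ℕ), fo Γ m (ev U β y) (insert y F')) F

variable {U}

theorem KK_mono {v v' r : ℕ} (h : v ≤ v') : ∀ {m : ℕ} {γ : T U m}, KK U v' r m γ → KK U v r m γ
  | 0, γ, hγ => ⟨fun x hx => lt_of_le_of_lt h (hγ.1 x hx), hγ.2⟩
  | m + 1, γ, hγ => ⟨hγ.1, hγ.2.mono fun _ hy => KK_mono h hy⟩

theorem ev_ins {b m : ℕ} (β : T U (m + 1)) :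
    ∀ᶠ y in (U : Filter ℕ), ev U (ins U b (m + 1) β) y = ins U b m (ev U β y) :=
  ev_mk (U := U) fun y => ins U b m (ev U β y)

theorem ins_inj {b r r' : ℕ} : ∀ {m : ℕ} {γ γ' : T U m}, KK U b r m γ → KK U b r' m γ' →
    ins U b m γ = ins U b m γ' → γ = γ'
  | 0, γ, γ', h, h', e => by
    have hb : b ∉ (show Finset ℕ from γ) := fun hb => lt_irrefl _ (h.1 b hb)
    have hb' : b ∉ (show Finset ℕ from γ') := fun hb => lt_irrefl _ (h'.1 b hb)
    have e' : insert b (show Finset ℕ from γ) = insert b (show Finset ℕ from γ') := e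
    have := congrArg (fun s => Finset.erase s b) e'
    simp only [Finset.erase_insert hb, Finset.erase_insert hb'] at this
    exact this
  | m + 1, γ, γ', h, h', e => by
    apply T_ext
    have e' : ∀ᶠ y in (U : Filter ℕ), ev U (ins U b (m + 1) γ) y = ev U (ins U b (m + 1) γ') y := by
      rw [e]
      exact Eventually.of_forall fun _ => rfl
    filter_upwards [e', ev_ins (b := b) γ, ev_ins (b := b) γ', h.2, h'.2] with y h1 h2 h3 h4 h5
    rw [h2, h3] at h1
    exact ins_inj h4 h5 h1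

theorem ins_det {b b' r r' : ℕ} : ∀ {m : ℕ} {γ γ' : T U m}, KK U b r m γ → KK U b' r' m γ' →
    ins U b m γ = ins U b' m γ' → b = b'
  | 0, γ, γ', h, h', e => by
    have e' : insert b (show Finset ℕ from γ) = insert b' (show Finset ℕ from γ') := e
    have h1 : b ∈ insert b' (show Finset ℕ from γ') := by rw [← e']; exact Finset.mem_insert_self _ _
    have h2 : b' ∈ insert b (show Finset ℕ from γ) := by rw [e']; exact Finset.mem_insert_self _ _
    rcases Finset.mem_insert.1 h1 with h1 | h1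
    · exact h1
    rcases Finset.mem_insert.1 h2 with h2 | h2
    · exact h2.symm
    exact absurd (h.1 _ h2) (not_lt.2 (h'.1 _ h1).le)
  | m + 1, γ, γ', h, h', e => by
    have e' : ∀ᶠ y in (U : Filter ℕ), ev U (ins U b (m + 1) γ) y = ev U (ins U b' (m + 1) γ') y := by
      rw [e]
      exact Eventually.of_forall fun _ => rfl
    obtain ⟨y, h1, h2, h3, h4, h5⟩ :=
      (e'.and ((ev_ins (b := b) γ).and ((ev_ins (b := b') γ').and (h.2.and h'.2)))).exists
    rw [h2, h3] at h1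
    exact ins_det h4 h5 h1

theorem KK_ins {v b r : ℕ} (hv : v < b) : ∀ {m : ℕ} {γ : T U m}, KK U b r m γ →
    KK U v (r + 1) m (ins U b m γ)
  | 0, γ, h => by
    have hb : b ∉ (show Finset ℕ from γ) := fun hb => lt_irrefl _ (h.1 b hb)
    refine ⟨fun x hx => ?_, ?_⟩
    · rcases Finset.mem_insert.1 hx with rfl | hx
      · exact hv
      · exact hv.trans (h.1 x hx)
    · exact (Finset.card_insert_of_notMem hb).trans (congrArg (· + 1) h.2)
  | m + 1, γ, h => by
    refine ⟨fun δ => ?_, ?_⟩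
    · by_contra hc
      have hc' : ∀ᶠ y in (U : Filter ℕ), ev U (ins U b (m + 1) γ) y = δ := by
        have := Ultrafilter.eventually_not.2 hc
        exact this.mono fun y hy => not_not.1 hy
      have h1 : ∀ᶠ y in (U : Filter ℕ), ins U b m (ev U γ y) = δ := by
        filter_upwards [hc', ev_ins (b := b) γ] with y h1 h2
        rw [← h2, h1]
      obtain ⟨y0, hy0, hy0'⟩ := (h1.and h.2).exists
      obtain ⟨y1, hy1, hy1', hy1''⟩ := (h1.and (h.2.and (h.1 (ev U γ y0)))).exists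
      exact hy1'' (ins_inj hy1' hy0' (hy1.trans hy0.symm))
    · filter_upwards [h.2, ev_ins (b := b) γ] with y h1 h2
      rw [h2]
      exact KK_ins hv h1

theorem fo_step {Γ : Finset ℕ → Set ℕ} {F : Finset ℕ} : ∀ {m : ℕ} {γ : T U m},
    (∀ᶠ y in (U : Filter ℕ), fo U Γ m γ (insert y F)) → fo U Γ m γ F
  | 0, _, h => Bar.step h
  | _ + 1, _, h => Bar.step h

theorem fo_ins {Γ : Finset ℕ → Set ℕ}
    (hΓ : ∀ F : Finset ℕ, ∀ᶠ y in (U : Filter ℕ), Γ F ⊆ Γ (insert y F)) {b : ℕ} :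
    ∀ {m : ℕ} {γ : T U m} {F : Finset ℕ}, b ∈ Γ F → fo U Γ m γ F → fo U Γ m (ins U b m γ) F
  | 0, γ, F, hb, h => by
    refine Bar.mono_inv (I := fun F => b ∈ Γ F) (fun F hF => (hΓ F).mono fun y hy => hy hF) ?_ h hb
    intro F' h1 h2 x hx
    rcases Finset.mem_insert.1 hx with rfl | hx
    · exact h1
    · exact h2 x hx
  | m + 1, γ, F, hb, h => by
    refine Bar.mono_inv (I := fun F => b ∈ Γ F) (fun F hF => (hΓ F).mono fun y hy => hy hF) ?_ h hb
    intro F' h1 h2
    filter_upwards [h2, hΓ F', ev_ins (b := b) γ] with y hy1 hy2 hy3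
    rw [hy3]
    exact fo_ins hΓ (hy2 h1) hy1

end Pool.Agent.Helper227.SOC
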